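import Pool.Agent.H76.Spr.Step

/-!
# Iteration of the two-slope entropy inequality over the scales
-/

set_option autoImplicit false

namespace Pool.Agent.H76.Spr

open Finset Real
open Pool.Agent.H49.Ent Pool.Agent.H32.Dense

variable {d : ℕ} {Ω ζ : Type} [Fintype Ω]

/-- The coarse time at level `j`. -/
noncomputable def ix (k n : ℕ) (τ : Ω → ℤ) (j : ℕ) (ω : Ω) : ℤ := τ ω / (k : ℤ) ^ (n - j)

/-- The position at the coarse time of level `j`. -/
noncomputable def xx (k n : ℕ) (u v : Ω → Fin d → ℝ) (τ : Ω → ℤ) (j : ℕ) (ω : Ω) : Fin d → ℝ :=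
  fun i => u ω i + (ix k n τ j ω : ℝ) / (k : ℝ) ^ j * v ω i

/-- The entropy of the rounded position and slope at level `j`. -/
noncomputable def GG (k n : ℕ) (p : Ω → ℝ) (u v : Ω → Fin d → ℝ) (τ : Ω → ℤ) (j α : ℕ) : ℝ :=
  H p (fun ω => ((rd (fun i => xx k n u v τ j ω i / (k : ℝ) ^ α),
    rd (fun i => v ω i / (k : ℝ) ^ (α + j))), ix k n τ j ω))

/-- The entropy of the time at level `j + 1` given the line and the time at level `j`. -/
noncomputable def hh (k n : ℕ) (p : Ω → ℝ) (Z : Ω → ζ) (τ : Ω → ℤ) (j : ℕ) : ℝ :=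
  CH p (ix k n τ (j + 1)) (fun ω => (Z ω, ix k n τ j ω))

omit [Fintype Ω] in
lemma ix_succ {k n : ℕ} (τ : Ω → ℤ) {j : ℕ} (hj : j < n) (ω : Ω) :
    ix k n τ j ω = ix k n τ (j + 1) ω / (k : ℤ) := by
  unfold ix
  have h1 : n - j = (n - (j + 1)) + 1 := by omega
  rw [h1, pow_succ, Int.ediv_ediv_of_nonneg (by positivity)]

omit [Fintype Ω] in
lemma ix_bounds {k n : ℕ} (hk : 1 ≤ k) (τ : Ω → ℤ) {j : ℕ} (hj : j < n) (ω : Ω) :
    (k : ℤ) * ix k n τ j ω ≤ ix k n τ (j + 1) ω ∧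
      ix k n τ (j + 1) ω < k * ix k n τ j ω + k := by
  have hk0 : (0 : ℤ) < k := by exact_mod_cast hk
  rw [ix_succ τ hj]
  constructor
  · exact Int.mul_ediv_self_le hk0.ne'
  · have := Int.lt_mul_ediv_self_add (x := ix k n τ (j + 1) ω) hk0
    exact this

omit [Fintype Ω] in
lemma ix_det {k n : ℕ} (p : Ω → ℝ) (τ : Ω → ℤ) {j : ℕ} (hj : j < n) :
    Det p (ix k n τ (j + 1)) (ix k n τ j) := by
  intro ω ω' _ _ h
  rw [ix_succ τ hj, ix_succ τ hj, h]

theorem GG_step {k n : ℕ} (hk : 1 ≤ k) {p : Ω → ℝ} (hp : ∀ ω, 0 ≤ p ω) (h1 : ∑ ω, p ω = 1)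
    (Z : Ω → ζ) (u v : Ω → Fin d → ℝ) (τ : Ω → ℤ) (hu : Det p Z u) (hv : Det p Z v)
    {j : ℕ} (hj : j < n) (α : ℕ) :
    GG k n p u v τ j (α + 1) + GG k n p u v τ j α + 2 * hh k n p Z τ j ≤
      2 * GG k n p u v τ (j + 1) α + d * (Real.log k - hh k n p Z τ j) +
        d * (4 * Real.log 7 + Real.log (3 + 2 * Real.log k)) := by
  have hk0 : (0 : ℝ) < k := by exact_mod_cast hk
  have h := step_abs (d := d) hk hp h1 (fun ω => (Z ω, ix k n τ j ω)) (ix k n τ j)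
    (ix k n τ (j + 1)) (fun ω i => xx k n u v τ j ω i / (k : ℝ) ^ α)
    (fun ω i => v ω i / (k : ℝ) ^ (α + j))
    (fun ω ω' _ _ h => (Prod.ext_iff.mp h).2)
    (fun ω ω' a a' h => by
      simp only [Prod.mk.injEq] at h
      funext i
      simp only [xx]
      rw [hu ω ω' a a' h.1, hv ω ω' a a' h.1, h.2])
    (fun ω ω' a a' h => by
      simp only [Prod.mk.injEq] at h
      funext i
      simp only
      rw [hv ω ω' a a' h.1])
    (fun ω _ => ix_bounds hk τ hj ω)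
  have e1 : (fun ω => ((rd (fun i => xx k n u v τ j ω i / (k : ℝ) ^ α / k),
      rd (fun i => v ω i / (k : ℝ) ^ (α + j) / k)), ix k n τ j ω)) =
      (fun ω => ((rd (fun i => xx k n u v τ j ω i / (k : ℝ) ^ (α + 1)),
    rd (fun i => v ω i / (k : ℝ) ^ (α + 1 + j))), ix k n τ j ω)) := by
    funext ω
    have a1 : α + 1 + j = α + j + 1 := by ring
    simp only [div_div, ← pow_succ, a1]
  have e2 : (fun ω => ((rd (nx k (ix k n τ j) (ix k n τ (j + 1))
      (fun ω i => xx k n u v τ j ω i / (k : ℝ) ^ α)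
      (fun ω i => v ω i / (k : ℝ) ^ (α + j)) ω),
      rd (fun i => v ω i / (k : ℝ) ^ (α + j) / k)), ix k n τ (j + 1) ω)) =
      (fun ω => ((rd (fun i => xx k n u v τ (j + 1) ω i / (k : ℝ) ^ α),
    rd (fun i => v ω i / (k : ℝ) ^ (α + (j + 1)))), ix k n τ (j + 1) ω)) := by
    funext ω
    have a1 : α + (j + 1) = α + j + 1 := by ring
    simp only [div_div, ← pow_succ, a1]
    congr 2
    · congr 1
      funext i
      simp only [nx, xx]
      field_simp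
      ring
  rw [e1, e2] at h
  exact h

/-- The iteration with a quadratic potential. -/
theorem GG_chain {k n : ℕ} (hk : 1 ≤ k) {p : Ω → ℝ} (hp : ∀ ω, 0 ≤ p ω) (h1 : ∑ ω, p ω = 1)
    (Z : Ω → ζ) (u v : Ω → Fin d → ℝ) (τ : Ω → ℤ) (hu : Det p Z u) (hv : Det p Z v)
    (a₀ b c : ℝ) (hG : ∀ α : ℕ, a₀ - b * ((α : ℝ) - c) ^ 2 ≤ GG k n p u v τ 0 α) :
    ∀ j ≤ n, ∀ α : ℕ, a₀ + ∑ i ∈ Finset.range j, (hh k n p Z τ i -
      d / 2 * (Real.log k - hh k n p Z τ i) -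
        d / 2 * (4 * Real.log 7 + Real.log (3 + 2 * Real.log k))) -
      b * (((α : ℝ) + j / 2 - c) ^ 2 + j / 4) ≤ GG k n p u v τ j α := by
  intro j
  induction j with
  | zero =>
    intro _ α
    have := hG α
    simp only [Finset.range_zero, Finset.sum_empty, Nat.cast_zero]
    nlinarith [this]
  | succ j ih =>
    intro hj α
    have i1 := ih (by omega) α
    have i2 := ih (by omega) (α + 1)
    have h3 := GG_step (n := n) hk hp h1 Z u v τ hu hv (j := j) (by omega) α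
    rw [Finset.sum_range_succ]
    push_cast at i1 i2 ⊢
    nlinarith [i1, i2, h3]

omit [Fintype Ω] in
lemma ix_zero {k n : ℕ} {τ : Ω → ℤ} {ω : Ω} (h : 0 ≤ τ ω ∧ τ ω < (k : ℤ) ^ n) :
    ix k n τ 0 ω = 0 := by
  unfold ix
  rw [Nat.sub_zero]
  exact Int.ediv_eq_zero_of_lt h.1 h.2

omit [Fintype Ω] in
lemma ix_n {k n : ℕ} (τ : Ω → ℤ) (ω : Ω) : ix k n τ n ω = τ ω := by
  unfold ix
  rw [Nat.sub_self, pow_zero, Int.ediv_one]

/-- The sum of the increments. -/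
lemma sum_hh {k n : ℕ} {p : Ω → ℝ} (hp : ∀ ω, 0 ≤ p ω)
    (Z : Ω → ζ) (τ : Ω → ℤ) (hτ : ∀ ω, 0 < p ω → 0 ≤ τ ω ∧ τ ω < (k : ℤ) ^ n) :
    ∑ i ∈ Finset.range n, hh k n p Z τ i = H p (fun ω => (Z ω, τ ω)) - H p Z := by
  have h1 : ∀ j ≤ n, ∑ i ∈ Finset.range j, hh k n p Z τ i =
      H p (fun ω => (Z ω, ix k n τ j ω)) - H p (fun ω => (Z ω, ix k n τ 0 ω)) := by
    intro j
    induction j with
    | zero => intro _; simp
    | succ j ih =>
      intro hj
      rw [Finset.sum_range_succ, ih (by omega)]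
      have h2 : H p (fun ω => (Z ω, ix k n τ (j + 1) ω)) =
          H p (fun ω => (ix k n τ (j + 1) ω, (Z ω, ix k n τ j ω))) := by
        apply H_congr hp
        · intro ω ω' a a' h
          simp only [Prod.mk.injEq] at h ⊢
          exact ⟨h.2.1, h.1⟩
        · intro ω ω' a a' h
          simp only [Prod.mk.injEq] at h ⊢
          exact ⟨h.2, h.1, ix_det p τ (by omega) ω ω' a a' h.2⟩
      unfold hh CH
      rw [h2]
      ring
  rw [h1 n le_rfl]
  have h3 : H p (fun ω => (Z ω, ix k n τ n ω)) = H p (fun ω => (Z ω, τ ω)) := by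
    simp_rw [ix_n]
  have h4 : H p (fun ω => (Z ω, ix k n τ 0 ω)) = H p Z := by
    apply H_congr hp
    · intro ω ω' a a' h
      simp only [Prod.mk.injEq]
      exact ⟨h, by rw [ix_zero (hτ ω a), ix_zero (hτ ω' a')]⟩
    · intro ω ω' a a' h
      exact (Prod.ext_iff.mp h).1
  rw [h3, h4]

end Pool.Agent.H76.Spr
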