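import Pool.Agent.H76.Spr.Incid

/-!
# Counting incidences: the final inequality
-/

set_option autoImplicit false

namespace Pool.Agent.H76.Spr

open Finset Real
open Pool.Agent.H49.Ent Pool.Agent.H32.Dense

/-- The error term. -/
noncomputable def errT (d k m : ℕ) (W : ℝ) : ℝ :=
  2 * d * Real.log 5 + d * √(2 * m) * Real.log k + d * m * LL k + d * Real.log (4 * W + 3)

/-- Incidences of a family of lines `u + (t / R) v`, `R = k ^ (2 m)`, with at most `M` lines in
each cube of side `k ^ m` of the space of lines, with a set `P` of unit cells. -/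
theorem incid_log {d k m : ℕ} (hk : 1 ≤ k) (hm : 1 ≤ m) {ι : Type} [Fintype ι] [DecidableEq ι]
    (u v : ι → Fin d → ℝ) {W : ℝ} (hW0 : 0 ≤ W) (hW : ∀ i l, |v i l| ≤ W * (k : ℝ) ^ (2 * m))
    (Inc : Finset (ι × ℤ)) (hI : Inc.Nonempty)
    (ht : ∀ z ∈ Inc, 0 ≤ z.2 ∧ z.2 < (k : ℤ) ^ (2 * m))
    (P : Finset ((Fin d → ℤ) × ℤ))
    (hP : ∀ z ∈ Inc, (rd (fun l => u z.1 l + (z.2 : ℝ) / (k : ℝ) ^ (2 * m) * v z.1 l), z.2) ∈ P)
    (M : ℕ) (hM : ∀ a b : Fin d → ℤ, (Finset.univ.filter fun i =>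
      rd (fun l => u i l / (k : ℝ) ^ m) = a ∧ rd (fun l => v i l / (k : ℝ) ^ m) = b).card ≤ M) :
    (1 + (d : ℝ) / 2) * Real.log Inc.card ≤ Real.log P.card +
      d / 2 * (2 * m * Real.log k + Real.log (Fintype.card ι)) + Real.log M + errT d k m W := by
  classical
  have hk0 : (0 : ℝ) < k := by exact_mod_cast hk
  let Ω : Type := {z : ι × ℤ // z ∈ Inc}
  haveI : Nonempty Ω := by
    obtain ⟨z, hz⟩ := hI
    exact ⟨⟨z, hz⟩⟩
  set p : Ω → ℝ := fun _ => (Fintype.card Ω : ℝ)⁻¹ with hpdef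
  have hcard : Fintype.card Ω = Inc.card := by
    simp [Ω]
  have hc0 : (0 : ℝ) < Fintype.card Ω := by exact_mod_cast Fintype.card_pos
  have hp : ∀ ω, 0 ≤ p ω := fun ω => by
    simp only [hpdef]
    positivity
  have hpp : ∀ ω, 0 < p ω := fun ω => by
    simp only [hpdef]
    positivity
  have h1 : ∑ ω, p ω = 1 := by
    simp only [hpdef]
    rw [Finset.sum_const, Finset.card_univ, nsmul_eq_mul]
    field_simp
  set Z : Ω → ι := fun ω => ω.1.1 with hZ
  set τ : Ω → ℤ := fun ω => ω.1.2 with hτd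
  set uu : Ω → Fin d → ℝ := fun ω => u (Z ω) with huu
  set vv : Ω → Fin d → ℝ := fun ω => v (Z ω) with hvv
  have hu : Det p Z uu := fun ω ω' _ _ h => by simp only [huu]; rw [h]
  have hv : Det p Z vv := fun ω ω' _ _ h => by simp only [hvv]; rw [h]
  have hτ : ∀ ω, 0 < p ω → 0 ≤ τ ω ∧ τ ω < (k : ℤ) ^ (2 * m) := fun ω _ => ht ω.1 ω.2
  -- the lines in a cube
  have hMlog : H p Z ≤ GG k (2 * m) p uu vv τ 0 m + Real.log M := by
    set V : Ω → ((Fin d → ℤ) × (Fin d → ℤ)) × ℤ :=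
      fun ω => ((rd (fun i => xx k (2 * m) uu vv τ 0 ω i / (k : ℝ) ^ m),
        rd (fun i => vv ω i / (k : ℝ) ^ (m + 0))), ix k (2 * m) τ 0 ω) with hV
    have e0 : GG k (2 * m) p uu vv τ 0 m = H p V := rfl
    have e1 : H p Z ≤ H p (fun ω => (Z ω, V ω)) :=
      H_mono hp (fun ω ω' _ _ h => (Prod.ext_iff.mp h).1)
    have hV0 : ∀ ω, V ω = ((rd (fun i => u (Z ω) i / (k : ℝ) ^ m),
        rd (fun i => v (Z ω) i / (k : ℝ) ^ m)), 0) := by
      intro ω
      have h0 : ix k (2 * m) τ 0 ω = 0 := ix_zero (hτ ω (hpp ω))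
      simp only [hV, xx, h0, huu, hvv, add_zero, Int.cast_zero, zero_div, zero_mul]
    have e2 := CH_le_card hp h1 Z V (fun w => Finset.univ.filter fun i =>
      rd (fun l => u i l / (k : ℝ) ^ m) = w.1.1 ∧ rd (fun l => v i l / (k : ℝ) ^ m) = w.1.2) (by
        intro ω _
        rw [hV0 ω]
        simp)
    have e3 : Ex p (fun ω => Real.log ((Finset.univ.filter fun i =>
      rd (fun l => u i l / (k : ℝ) ^ m) = (V ω).1.1 ∧
        rd (fun l => v i l / (k : ℝ) ^ m) = (V ω).1.2).card)) ≤ Real.log M := by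
      rw [← Ex_const h1 (Real.log M)]
      apply Ex_mono hp
      intro ω _
      apply Real.log_le_log
      · have : 0 < (Finset.univ.filter fun i =>
          rd (fun l => u i l / (k : ℝ) ^ m) = (V ω).1.1 ∧
            rd (fun l => v i l / (k : ℝ) ^ m) = (V ω).1.2).card := by
          apply Finset.card_pos.mpr
          exact ⟨Z ω, by rw [hV0 ω]; simp⟩
        exact_mod_cast this
      · exact_mod_cast hM _ _
    have e4 := e2.trans e3
    unfold CH at e4
    rw [e0]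
    linarith
  have hlow := entropy_low hk hm hp h1 Z uu vv τ hu hv hτ (Real.log M) hMlog
  -- the entropy of the incidences
  have hinj : H p (fun ω => (Z ω, τ ω)) = Real.log Inc.card := by
    have := H_uniform (Ω := Ω) (X := fun ω => (Z ω, τ ω)) (by
      intro ω ω' h
      simp only [hZ, hτd, Prod.mk.injEq] at h
      exact Subtype.ext (Prod.ext h.1 h.2))
    rw [hcard] at this
    rw [← this]
    simp only [hpdef, hcard]
  have hZN : H p Z ≤ Real.log (Fintype.card ι) := by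
    have := H_le_log_card hp h1 Z Finset.univ (fun ω _ => Finset.mem_univ _)
    rwa [Finset.card_univ] at this
  -- the upper bound
  have hup : GG k (2 * m) p uu vv τ (2 * m) 0 ≤ Real.log P.card + d * Real.log (4 * W + 3) := by
    set X : Ω → Fin d → ℤ := fun ω => rd (fun i => xx k (2 * m) uu vv τ (2 * m) ω i / (k : ℝ) ^ 0)
      with hX
    set Y : Ω → Fin d → ℤ := fun ω => rd (fun i => vv ω i / (k : ℝ) ^ (0 + 2 * m)) with hY
    have e0 : GG k (2 * m) p uu vv τ (2 * m) 0 =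
        H p (fun ω => ((X ω, Y ω), ix k (2 * m) τ (2 * m) ω)) := rfl
    have hXP : ∀ ω, (X ω, τ ω) ∈ P := by
      intro ω
      have := hP ω.1 ω.2
      simp only [hX, xx, ix_n, pow_zero, div_one, huu, hvv]
      exact this
    have e1 : GG k (2 * m) p uu vv τ (2 * m) 0 ≤ H p (fun ω => (Y ω, (X ω, τ ω))) := by
      rw [e0]
      apply H_mono hp
      intro ω ω' _ _ h
      simp only [Prod.mk.injEq] at h ⊢
      rw [ix_n, ix_n]
      exact ⟨⟨h.2.1, h.1⟩, h.2.2⟩
    have e2 : H p (fun ω => (Y ω, (X ω, τ ω))) = H p (fun ω => (X ω, τ ω)) +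
        CH p Y (fun ω => (X ω, τ ω)) := by
      unfold CH; ring
    have e3 : H p (fun ω => (X ω, τ ω)) ≤ Real.log P.card :=
      H_le_log_card hp h1 _ P (fun ω _ => hXP ω)
    have e4 := CH_le_vec hp h1 Y (fun ω => (X ω, τ ω)) (fun _ => 2 * W + 1) (by
      intro ω ω' _ _ _ i
      simp only [hY, rd_apply, zero_add]
      refine (floor_diff _ _).trans ?_
      apply add_le_add _ le_rfl
      have g1 : ∀ ω, |vv ω i / (k : ℝ) ^ (2 * m)| ≤ W := by
        intro ω
        rw [abs_div, abs_of_pos (pow_pos hk0 _), div_le_iff₀ (pow_pos hk0 _)]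
        exact hW _ _
      refine (abs_sub _ _).trans ?_
      linarith [g1 ω, g1 ω'])
    rw [Ex_const h1] at e4
    have e5 : 2 * (2 * W + 1) + 1 = 4 * W + 3 := by ring
    rw [e5] at e4
    linarith
  rw [hinj] at hlow
  unfold errT
  have hd0 : (0 : ℝ) ≤ d := Nat.cast_nonneg d
  nlinarith [hlow, hup, hZN, mul_le_mul_of_nonneg_left hZN (by positivity : (0 : ℝ) ≤ d / 2)]

/-- The error term is small. -/
theorem err_small (d : ℕ) {ε : ℝ} (hε : 0 < ε) {W : ℝ} (hW : 0 ≤ W) :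
    ∃ κ : ℕ, 1 ≤ κ ∧ ∃ C : ℝ, 0 ≤ C ∧ ∀ m : ℕ,
      errT d (2 ^ κ) m W ≤ C + ε * (2 * m * Real.log ((2 ^ κ : ℕ) : ℝ)) := by
  -- choose ε' with d ε' + d ε' / 2 ≤ ε
  set η : ℝ := ε / (2 * (d + 1)) with hη
  have hη0 : 0 < η := by positivity
  have hlim : ∃ κ : ℕ, 1 ≤ κ ∧ LL (2 ^ κ) ≤ η * Real.log ((2 ^ κ : ℕ) : ℝ) := by
    have h1 : Filter.Tendsto (fun x : ℝ => (4 * Real.log 7 + Real.log (3 + 2 * x)) / x)
        Filter.atTop (nhds 0) := by
      have h2 : Filter.Tendsto (fun x : ℝ => 4 * Real.log 7 / x) Filter.atTop (nhds 0) :=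
        Filter.Tendsto.div_atTop tendsto_const_nhds Filter.tendsto_id
      have h3 : Filter.Tendsto (fun x : ℝ => Real.log (3 + 2 * x) / x) Filter.atTop (nhds 0) := by
        have h4 : (fun x : ℝ => Real.log (3 + 2 * x)) =o[Filter.atTop] (fun x : ℝ => 3 + 2 * x) :=
          Real.isLittleO_log_id_atTop.comp_tendsto
            (Filter.tendsto_atTop_add_const_left _ _ (Filter.tendsto_id.const_mul_atTop (by norm_num)))
        have h5 : (fun x : ℝ => 3 + 2 * x) =O[Filter.atTop] (fun x : ℝ => x) := by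
          apply Asymptotics.IsBigO.of_bound 5
          filter_upwards [Filter.eventually_ge_atTop (1 : ℝ)] with x hx
          rw [Real.norm_of_nonneg (by linarith), Real.norm_of_nonneg (by linarith)]
          linarith
        exact (h4.trans_isBigO h5).tendsto_div_nhds_zero
      have h6 := h2.add h3
      rw [add_zero] at h6
      refine h6.congr (fun x => ?_)
      ring
    have h7 : Filter.Tendsto (fun κ : ℕ => Real.log ((2 ^ κ : ℕ) : ℝ)) Filter.atTop
        Filter.atTop := by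
      have : (fun κ : ℕ => Real.log ((2 ^ κ : ℕ) : ℝ)) = fun κ : ℕ => (κ : ℝ) * Real.log 2 := by
        funext κ
        push_cast
        rw [Real.log_pow]
      rw [this]
      exact tendsto_natCast_atTop_atTop.atTop_mul_const (Real.log_pos (by norm_num))
    have h8 := (h1.comp h7).eventually (Iic_mem_nhds hη0)
    obtain ⟨κ, h9, h10⟩ := (h8.and (Filter.eventually_ge_atTop 1)).exists
    refine ⟨κ, h10, ?_⟩
    have h11 : 0 < Real.log ((2 ^ κ : ℕ) : ℝ) := by
      apply Real.log_pos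
      exact_mod_cast Nat.one_lt_two_pow (by omega)
    simp only [Function.comp, Set.mem_Iic] at h9
    rw [div_le_iff₀ h11] at h9
    exact h9
  obtain ⟨κ, hκ, hL⟩ := hlim
  have hlk : 0 ≤ Real.log ((2 ^ κ : ℕ) : ℝ) := by
    apply Real.log_nonneg
    exact_mod_cast Nat.one_le_two_pow
  refine ⟨κ, hκ, 2 * d * Real.log 5 + d * Real.log ((2 ^ κ : ℕ) : ℝ) / (4 * η) +
    d * Real.log (4 * W + 3), ?_, ?_⟩
  · have : 0 ≤ Real.log (4 * W + 3) := Real.log_nonneg (by linarith)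
    have h5 : 0 ≤ Real.log 5 := Real.log_nonneg (by norm_num)
    positivity
  · intro m
    unfold errT
    have h1 : √(2 * m) ≤ η * (2 * m) + 1 / (4 * η) := by
      set y : ℝ := √(2 * m) with hy
      have hy2 : y * y = 2 * m := Real.mul_self_sqrt (by positivity)
      rw [← hy2]
      have h2 : η * (y * y) + 1 / (4 * η) - y = (2 * η * y - 1) ^ 2 / (4 * η) := by
        field_simp
        ring
      have h3 : 0 ≤ (2 * η * y - 1) ^ 2 / (4 * η) := by positivity
      linarith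
    have h2 : (d : ℝ) * √(2 * m) * Real.log ((2 ^ κ : ℕ) : ℝ) ≤
        d * (η * (2 * m) + 1 / (4 * η)) * Real.log ((2 ^ κ : ℕ) : ℝ) := by
      apply mul_le_mul_of_nonneg_right _ hlk
      exact mul_le_mul_of_nonneg_left h1 (Nat.cast_nonneg d)
    have h3 : (d : ℝ) * m * LL (2 ^ κ) ≤ d * m * (η * Real.log ((2 ^ κ : ℕ) : ℝ)) :=
      mul_le_mul_of_nonneg_left hL (by positivity)
    have h4 : (d : ℝ) * η * 2 ≤ ε := by
      rw [hη]
      have h5 : (d : ℝ) * (ε / (2 * (d + 1))) * 2 = ε * (d / (d + 1)) := by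
        field_simp
      rw [h5]
      have h6 : (d : ℝ) / (d + 1) ≤ 1 := by
        rw [div_le_one (by positivity)]
        linarith
      nlinarith
    have h7 : (d : ℝ) * η * (2 * m) * Real.log ((2 ^ κ : ℕ) : ℝ) +
        d * m * (η * Real.log ((2 ^ κ : ℕ) : ℝ)) ≤
        ε * (2 * m * Real.log ((2 ^ κ : ℕ) : ℝ)) := by
      have h8 : (d : ℝ) * η * (2 * m) * Real.log ((2 ^ κ : ℕ) : ℝ) +
        d * m * (η * Real.log ((2 ^ κ : ℕ) : ℝ)) =
          (d * η * 2 * (3 / 4)) * (2 * m * Real.log ((2 ^ κ : ℕ) : ℝ)) := by ring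
      rw [h8]
      apply mul_le_mul_of_nonneg_right _ (by positivity)
      have : 0 ≤ (d : ℝ) * η * 2 := by positivity
      linarith
    have h9 : d * (η * (2 * m) + 1 / (4 * η)) * Real.log ((2 ^ κ : ℕ) : ℝ) =
        (d : ℝ) * η * (2 * m) * Real.log ((2 ^ κ : ℕ) : ℝ) +
          d * Real.log ((2 ^ κ : ℕ) : ℝ) / (4 * η) := by
      field_simp
    linarith

/-- The counting theorem with loss `ε`. -/
theorem incid_count (d : ℕ) {ε : ℝ} (hε : 0 < ε) {W : ℝ} (hW0 : 0 ≤ W) :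
    ∃ κ : ℕ, 1 ≤ κ ∧ ∃ C : ℝ, 0 < C ∧ ∀ m : ℕ, 1 ≤ m → ∀ (ι : Type) [Fintype ι] [DecidableEq ι]
      (u v : ι → Fin d → ℝ), (∀ i l, |v i l| ≤ W * (2 : ℝ) ^ (2 * (κ * m))) →
      ∀ (Inc : Finset (ι × ℤ)), (∀ z ∈ Inc, 0 ≤ z.2 ∧ z.2 < (2 : ℤ) ^ (2 * (κ * m))) →
      ∀ (P : Finset ((Fin d → ℤ) × ℤ)),
      (∀ z ∈ Inc, (rd (fun l => u z.1 l + (z.2 : ℝ) / (2 : ℝ) ^ (2 * (κ * m)) * v z.1 l), z.2)
        ∈ P) →
      ∀ (M : ℕ), (∀ a b : Fin d → ℤ, (Finset.univ.filter fun i =>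
        rd (fun l => u i l / (2 : ℝ) ^ (κ * m)) = a ∧
          rd (fun l => v i l / (2 : ℝ) ^ (κ * m)) = b).card ≤ M) →
      (Inc.card : ℝ) ^ (1 + (d : ℝ) / 2) ≤ C * ((2 : ℝ) ^ (2 * (κ * m))) ^ ε * M * P.card *
        ((2 : ℝ) ^ (2 * (κ * m)) * Fintype.card ι) ^ ((d : ℝ) / 2) := by
  classical
  obtain ⟨κ, hκ, C, hC, herr⟩ := err_small d hε hW0
  refine ⟨κ, hκ, Real.exp C, Real.exp_pos _, ?_⟩
  intro m hm ι _ _ u v hv Inc ht P hP M hM
  rcases Inc.eq_empty_or_nonempty with h0 | hne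
  · rw [h0, Finset.card_empty, Nat.cast_zero, Real.zero_rpow (by positivity)]
    positivity
  · have hpw : ∀ j : ℕ, (((2 ^ κ : ℕ) : ℝ)) ^ j = (2 : ℝ) ^ (κ * j) := by
      intro j
      push_cast
      rw [← pow_mul]
    have hpw2 : (((2 ^ κ : ℕ) : ℝ)) ^ (2 * m) = (2 : ℝ) ^ (2 * (κ * m)) := by
      rw [hpw]
      congr 1
      ring
    have hpz : (((2 ^ κ : ℕ) : ℤ)) ^ (2 * m) = (2 : ℤ) ^ (2 * (κ * m)) := by
      push_cast
      rw [← pow_mul]
      congr 1
      ring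
    have hmain := incid_log (d := d) (k := 2 ^ κ) (m := m) Nat.one_le_two_pow hm u v hW0
      (by rw [hpw2]; exact hv) Inc hne (by rw [hpz]; exact ht) P (by rw [hpw2]; exact hP) M
      (by rw [hpw]; exact hM)
    obtain ⟨z, hz⟩ := hne
    have hI0 : (0 : ℝ) < Inc.card := by exact_mod_cast Finset.card_pos.mpr ⟨z, hz⟩
    have hP0 : (0 : ℝ) < P.card := by exact_mod_cast Finset.card_pos.mpr ⟨_, hP z hz⟩
    have hN0 : (0 : ℝ) < Fintype.card ι := by
      exact_mod_cast Fintype.card_pos_iff.mpr ⟨z.1⟩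
    have hM0 : (0 : ℝ) < M := by
      have h2 := hM (rd (fun l => u z.1 l / (2 : ℝ) ^ (κ * m)))
        (rd (fun l => v z.1 l / (2 : ℝ) ^ (κ * m)))
      have h3 : 0 < (Finset.univ.filter fun i =>
        rd (fun l => u i l / (2 : ℝ) ^ (κ * m)) = (rd (fun l => u z.1 l / (2 : ℝ) ^ (κ * m))) ∧
          rd (fun l => v i l / (2 : ℝ) ^ (κ * m)) =
            (rd (fun l => v z.1 l / (2 : ℝ) ^ (κ * m)))).card :=
        Finset.card_pos.mpr ⟨z.1, by simp⟩
      exact_mod_cast lt_of_lt_of_le h3 h2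
    have hR0 : (0 : ℝ) < (2 : ℝ) ^ (2 * (κ * m)) := by positivity
    have hlogR : 2 * m * Real.log ((2 ^ κ : ℕ) : ℝ) = Real.log ((2 : ℝ) ^ (2 * (κ * m))) := by
      rw [Real.log_pow]
      push_cast
      rw [Real.log_pow]
      ring
    have herr' := herr m
    rw [hlogR] at herr' hmain
    have hl : Real.log ((Inc.card : ℝ) ^ (1 + (d : ℝ) / 2)) ≤
        Real.log (Real.exp C * ((2 : ℝ) ^ (2 * (κ * m))) ^ ε * M * P.card *
        ((2 : ℝ) ^ (2 * (κ * m)) * Fintype.card ι) ^ ((d : ℝ) / 2)) := by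
      rw [Real.log_rpow hI0, Real.log_mul (by positivity) (by positivity),
        Real.log_mul (by positivity) (by positivity), Real.log_mul (by positivity) (by positivity),
        Real.log_mul (by positivity) (by positivity), Real.log_exp, Real.log_rpow hR0,
        Real.log_rpow (by positivity), Real.log_mul (by positivity) (by positivity)]
      linarith
    exact (Real.log_le_log_iff (by positivity) (by positivity)).mp hl

end Pool.Agent.H76.Spr
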