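import Pool.Agent.H32.Dense.Conf
import Pool.Agent.H32.Dense.Times

/-!
# Logarithmic energy of conditionally independent integer times
-/

set_option autoImplicit false

namespace Pool.Agent.H76.Spr

open Finset Real
open Pool.Agent.H49.Ent Pool.Agent.H32.Dense

lemma sum_half (k : ℕ) (A : Finset ℤ) (g : ℤ → ℕ) (hg : Set.InjOn g A) (hk : ∀ x ∈ A, g x < k)
    (f : ℤ → ℝ) (hf : ∀ x ∈ A, f x ≤ ((g x : ℝ) + 1)⁻¹) :
    ∑ x ∈ A, f x ≤ 1 + Real.log k := by
  classical
  calc ∑ x ∈ A, f x ≤ ∑ x ∈ A, ((g x : ℝ) + 1)⁻¹ := Finset.sum_le_sum hf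
    _ = ∑ i ∈ A.image g, ((i : ℝ) + 1)⁻¹ := by
        rw [Finset.sum_image hg]
    _ ≤ ∑ i ∈ Finset.range k, ((i : ℝ) + 1)⁻¹ := by
        apply Finset.sum_le_sum_of_subset_of_nonneg
        · intro i hi
          obtain ⟨x, hx, rfl⟩ := Finset.mem_image.mp hi
          exact Finset.mem_range.mpr (hk x hx)
        · intro i _ _
          positivity
    _ = (harmonic k : ℝ) := by
        rw [harmonic]
        push_cast
        rfl
    _ ≤ 1 + Real.log k := harmonic_le_one_add_log k

/-- The sum of the inverse distances in a window of `k` integers. -/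
lemma sum_inv_dist {k : ℕ} (hk : 1 ≤ k) (s : ℤ) (F : Finset ℤ) :
    ∑ x ∈ F, (if |x - s| < (k : ℤ) then (max |(x : ℝ) - s| 1)⁻¹ else 0) ≤
      3 + 2 * Real.log k := by
  classical
  set f : ℤ → ℝ := fun x => if |x - s| < (k : ℤ) then (max |(x : ℝ) - s| 1)⁻¹ else 0 with hf
  have hf0 : ∀ x, 0 ≤ f x := by
    intro x
    simp only [hf]
    split_ifs
    · positivity
    · exact le_rfl
  set G : Finset ℤ := F.filter fun x => |x - s| < (k : ℤ) with hG
  have h1 : ∑ x ∈ F, f x = ∑ x ∈ G, f x := by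
    rw [hG, Finset.sum_filter]
    apply Finset.sum_congr rfl
    intro x _
    simp only [hf]
    split_ifs <;> rfl
  have h2 : ∑ x ∈ G, f x = ∑ x ∈ G.filter (fun x => x = s), f x +
      (∑ x ∈ G.filter (fun x => s < x), f x + ∑ x ∈ G.filter (fun x => x < s), f x) := by
    rw [← Finset.sum_filter_add_sum_filter_not G (fun x => x = s)]
    congr 1
    rw [← Finset.sum_filter_add_sum_filter_not (G.filter fun x => ¬ x = s) (fun x => s < x)]
    congr 1
    · apply Finset.sum_congr _ (fun _ _ => rfl)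
      ext x
      simp only [Finset.mem_filter]
      constructor
      · rintro ⟨⟨a, _⟩, c⟩; exact ⟨a, c⟩
      · rintro ⟨a, c⟩; exact ⟨⟨a, by omega⟩, c⟩
    · apply Finset.sum_congr _ (fun _ _ => rfl)
      ext x
      simp only [Finset.mem_filter]
      constructor
      · rintro ⟨⟨a, b⟩, c⟩; exact ⟨a, by omega⟩
      · rintro ⟨a, c⟩; exact ⟨⟨a, by omega⟩, by omega⟩
  have h3 : ∑ x ∈ G.filter (fun x => x = s), f x ≤ 1 := by
    have h4 : G.filter (fun x => x = s) ⊆ {s} := by
      intro x hx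
      exact Finset.mem_singleton.mpr (Finset.mem_filter.mp hx).2
    refine (Finset.sum_le_sum_of_subset_of_nonneg h4 (fun x _ _ => hf0 x)).trans ?_
    rw [Finset.sum_singleton]
    simp only [hf]
    split_ifs
    · simp
    · norm_num
  have h5 : ∑ x ∈ G.filter (fun x => s < x), f x ≤ 1 + Real.log k := by
    apply sum_half k _ (fun x => (x - s - 1).toNat)
    · intro x hx y hy hxy
      have h6 := (Finset.mem_filter.mp (Finset.mem_coe.mp hx)).2
      have h7 := (Finset.mem_filter.mp (Finset.mem_coe.mp hy)).2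
      simp only at hxy
      omega
    · intro x hx
      have h6 := (Finset.mem_filter.mp hx).2
      have h7 := (Finset.mem_filter.mp (Finset.mem_filter.mp hx).1).2
      rw [abs_lt] at h7
      omega
    · intro x hx
      have h6 := (Finset.mem_filter.mp hx).2
      have h7 := (Finset.mem_filter.mp (Finset.mem_filter.mp hx).1).2
      simp only [hf]
      rw [if_pos h7]
      have h8 : (((x - s - 1).toNat : ℕ) : ℝ) = (x : ℝ) - s - 1 := by
        have : (((x - s - 1).toNat : ℕ) : ℤ) = x - s - 1 := Int.toNat_of_nonneg (by omega)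
        exact_mod_cast congrArg (fun z : ℤ => (z : ℝ)) this
      rw [h8]
      have h9 : (1 : ℝ) ≤ (x : ℝ) - s := by
        have : (1 : ℤ) ≤ x - s := by omega
        exact_mod_cast this
      have h10 : (x : ℝ) - s - 1 + 1 = (x : ℝ) - s := by ring
      rw [h10]
      apply inv_anti₀ (by linarith)
      exact le_max_of_le_left (le_abs_self _)
  have h5' : ∑ x ∈ G.filter (fun x => x < s), f x ≤ 1 + Real.log k := by
    apply sum_half k _ (fun x => (s - x - 1).toNat)
    · intro x hx y hy hxy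
      have h6 := (Finset.mem_filter.mp (Finset.mem_coe.mp hx)).2
      have h7 := (Finset.mem_filter.mp (Finset.mem_coe.mp hy)).2
      simp only at hxy
      omega
    · intro x hx
      have h6 := (Finset.mem_filter.mp hx).2
      have h7 := (Finset.mem_filter.mp (Finset.mem_filter.mp hx).1).2
      rw [abs_lt] at h7
      omega
    · intro x hx
      have h6 := (Finset.mem_filter.mp hx).2
      have h7 := (Finset.mem_filter.mp (Finset.mem_filter.mp hx).1).2
      simp only [hf]
      rw [if_pos h7]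
      have h8 : (((s - x - 1).toNat : ℕ) : ℝ) = (s : ℝ) - x - 1 := by
        have : (((s - x - 1).toNat : ℕ) : ℤ) = s - x - 1 := Int.toNat_of_nonneg (by omega)
        exact_mod_cast congrArg (fun z : ℤ => (z : ℝ)) this
      rw [h8]
      have h9 : (1 : ℝ) ≤ (s : ℝ) - x := by
        have : (1 : ℤ) ≤ s - x := by omega
        exact_mod_cast this
      have h10 : (s : ℝ) - x - 1 + 1 = (s : ℝ) - x := by ring
      rw [h10]
      apply inv_anti₀ (by linarith)
      exact le_max_of_le_left (by rw [abs_sub_comm]; exact le_abs_self _)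
  rw [h1, h2]
  linarith

variable {Ω : Type} [Fintype Ω] {β : Type}

/-- The logarithmic energy of two conditionally independent copies is bounded by the information. -/
theorem energy_le {k : ℕ} (hk : 1 ≤ k) {p : Ω → ℝ} (hp : ∀ ω, 0 ≤ p ω) (h1 : ∑ ω, p ω = 1)
    (b : Ω → β) (t : Ω → ℤ)
    (hw : ∀ ω ω', 0 < p ω → 0 < p ω' → b ω = b ω' → |t ω - t ω'| < (k : ℤ)) :
    Ex (dbl p b) (fun w => ell k (t w.1) (t w.2)) ≤
      Real.log k - CH p t b + Real.log (3 + 2 * Real.log k) := by
  have hkr : (1 : ℝ) ≤ k := by exact_mod_cast hk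
  have hlog : 0 ≤ Real.log k := Real.log_nonneg hkr
  set S : ℝ := 3 + 2 * Real.log k with hS
  have hS0 : 0 < S := by rw [hS]; linarith
  have hq0 := dbl_nonneg (b := b) hp
  have hq1 : ∑ w, dbl p b w = 1 := by rw [(dbl_fst hp).sum, h1]
  have hc := CH_dbl_2 (b := b) hp t t
  have hpos1 : ∀ w, 0 < dbl p b w → 0 < p w.1 ∧ 0 < p w.2 ∧ b w.1 = b w.2 := fun w hw' =>
    (glue_pos_iff hp hp w).mp hw'
  have hcr := CH_le_cross hq0 hq1 (fun w : Ω × Ω => t w.2) (fun w => (b w.2, t w.1))
    (fun z x => (if |x - z.2| < (k : ℤ) then (max |(x : ℝ) - z.2| 1)⁻¹ else 0) / S)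
    (by
      intro w hw'
      obtain ⟨a1, a2, a3⟩ := hpos1 w hw'
      have h2 := hw _ _ a2 a1 a3.symm
      rw [if_pos h2]
      positivity)
    (by
      intro z x
      split_ifs
      · positivity
      · simp)
    (by
      intro w _ F
      rw [← Finset.sum_div, div_le_one hS0]
      exact sum_inv_dist hk _ F)
  rw [hc] at hcr
  have he : Ex (dbl p b) (fun w => -Real.log ((if |t w.2 - t w.1| < (k : ℤ) then
      (max |(t w.2 : ℝ) - t w.1| 1)⁻¹ else 0) / S)) ≤
      Ex (dbl p b) (fun w => Real.log k + Real.log S - ell k (t w.1) (t w.2)) := by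
    apply Ex_mono hq0
    intro w hw'
    obtain ⟨a1, a2, a3⟩ := hpos1 w hw'
    have h2 := hw _ _ a2 a1 a3.symm
    rw [if_pos h2]
    have hm : (0 : ℝ) < max |(t w.2 : ℝ) - t w.1| 1 := lt_of_lt_of_le one_pos (le_max_right _ _)
    have hm' : max |(t w.1 : ℝ) - t w.2| 1 = max |(t w.2 : ℝ) - t w.1| 1 := by
      rw [abs_sub_comm]
    rw [ell, hm', Real.log_div (inv_ne_zero hm.ne') hS0.ne', Real.log_inv,
      Real.log_div (by positivity) hm.ne']
    linarith
  have he2 : Ex (dbl p b) (fun w => Real.log k + Real.log S - ell k (t w.1) (t w.2)) =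
      Real.log k + Real.log S - Ex (dbl p b) (fun w => ell k (t w.1) (t w.2)) := by
    rw [Ex_sub (dbl p b) (fun _ => Real.log k + Real.log S), Ex_const hq1]
  have h3 := hcr.trans he
  rw [he2] at h3
  linarith

end Pool.Agent.H76.Spr
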