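import Pool.Agent.H76.Spr.Level

/-!
# Families of tubes which are spread at the middle scale: the final bounds
-/

set_option autoImplicit false

open MeasureTheory ENNReal
open scoped RealInnerProductSpace

namespace Pool.Agent.H76.Spr

open Pool.Agent.H53.Kak Pool.Agent.H32.Dense Pool.Agent.H53.Dns

variable {d : ℕ} {ι : Type}

open Classical in
/-- Every fat tube of radius `ρ` about a member of the family contains at most `B` members. -/
def SpreadF (δ ρ B : ℝ) (c e : ι → E d) (S : Finset ι) : Prop :=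
  ∀ i ∈ S, ((S.filter fun j => tube δ (c j) (e j) ⊆ fatT ρ (c i) (e i)).card : ℝ) ≤ B

lemma vol_of_mul {r Z : ℝ} (hr : 0 < r) {V : ℝ≥0∞}
    (h : ENNReal.ofReal r * V ≤ ENNReal.ofReal Z) : V ≤ ENNReal.ofReal (Z / r) := by
  have hne : ENNReal.ofReal r ≠ 0 := by simpa using hr
  have h2 : V ≤ (ENNReal.ofReal r)⁻¹ * ENNReal.ofReal Z := by
    rw [← ENNReal.mul_le_iff_le_inv hne ENNReal.ofReal_ne_top]
    exact h
  refine h2.trans (le_of_eq ?_)
  rw [← ENNReal.ofReal_inv_of_pos hr, ← ENNReal.ofReal_mul (by positivity)]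
  congr 1
  field_simp

/-- **Level sets in terms of the number of tubes in fat tubes of radius `ρ`.** -/
theorem level_spread (hd : 1 ≤ d) {ε : ℝ} (hε : 0 < ε) :
    ∃ K₀ : ℝ, 1 ≤ K₀ ∧ ∀ G : ℝ, 0 ≤ G → ∃ C : ℝ, 0 < C ∧ ∀ δ ρ : ℝ, 0 < δ → δ < 1 → 0 < ρ →
      ρ ≤ 1 → δ ≤ G * ρ ^ 2 → 4 * ((d : ℝ) + 1) * δ ≤ ρ → ∀ (ι : Type) (S : Finset ι)
      (c e : ι → E d), (∀ i ∈ S, ‖e i‖ = 1) → ∀ B : ℝ, 0 ≤ B → SpreadF δ ρ B c e S →
      ∀ r : ℝ, 0 < r → volume {x | r ≤ mu δ c e S x} ≤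
        ENNReal.ofReal (C * (K₀ ^ 2 / ρ ^ 2) ^ ε * (B / r) ^ (2 / (d : ℝ)) *
          (δ ^ d * S.card) / r) := by
  have hd0 : (0 : ℝ) < d := by exact_mod_cast hd
  obtain ⟨κ, hκ, hlev⟩ := level_general (d := d) hd hε
  set K₀ : ℝ := 2 ^ κ * (10 * ((d : ℝ) + 1)) with hK₀
  have h2κ : (1 : ℝ) < 2 ^ κ := one_lt_pow₀ (by norm_num) (by omega)
  have hK₀1 : 1 ≤ K₀ := by
    rw [hK₀]
    nlinarith
  refine ⟨K₀, hK₀1, ?_⟩
  intro G hG
  obtain ⟨C, hC, hlev2⟩ := hlev (G * K₀ ^ 2) (by positivity)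
  refine ⟨C * (5 * ((d : ℝ) + 1) + 2) ^ (2 / (d : ℝ)), by positivity, ?_⟩
  intro δ ρ hδ hδ1 hρ hρ1 hδG hδρ ι S c e hunit B hB hsp r hr
  -- the scale
  obtain ⟨n, hn1, hn2⟩ := exists_nat_pow_near (x := 10 * ((d : ℝ) + 1) / ρ) (y := 2 ^ κ)
    (by rw [le_div_iff₀ hρ]; nlinarith) h2κ
  set m₀ : ℕ := n + 1 with hm₀
  have hpw : (2 : ℝ) ^ (κ * m₀) = (2 ^ κ) ^ (n + 1) := by rw [pow_mul]
  have h2n : (0 : ℝ) < 2 ^ (κ * m₀) := by positivity
  have hlow : 10 * ((d : ℝ) + 1) / ρ < 2 ^ (κ * m₀) := by rw [hpw]; exact hn2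
  have hup : (2 : ℝ) ^ (κ * m₀) ≤ K₀ / ρ := by
    rw [hpw, pow_succ, hK₀]
    calc (2 ^ κ : ℝ) ^ n * 2 ^ κ ≤ (10 * ((d : ℝ) + 1) / ρ) * 2 ^ κ := by gcongr
      _ = _ := by ring
  have hR : (2 : ℝ) ^ (2 * (κ * m₀)) ≤ K₀ ^ 2 / ρ ^ 2 := by
    rw [two_mul, pow_add, ← div_pow, sq]
    gcongr
  have hδm : δ * 2 ^ (2 * (κ * m₀)) ≤ G * K₀ ^ 2 := by
    calc δ * 2 ^ (2 * (κ * m₀)) ≤ (G * ρ ^ 2) * (K₀ ^ 2 / ρ ^ 2) := by gcongr
      _ = G * K₀ ^ 2 := by field_simp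
  have hgeo : ((d : ℝ) + 1) * (5 * (1 / 2 ^ (κ * m₀)) + 2 * δ) ≤ ρ := by
    have h1 : ((d : ℝ) + 1) * (5 * (1 / 2 ^ (κ * m₀))) ≤ ρ / 2 := by
      rw [div_lt_iff₀ hρ] at hlow
      have : ((d : ℝ) + 1) * (5 * (1 / 2 ^ (κ * m₀))) = (5 * ((d : ℝ) + 1)) / 2 ^ (κ * m₀) := by
        ring
      rw [this, div_le_iff₀ h2n]
      linarith
    nlinarith
  have hcells := cells_le (n := κ * m₀) hδ.le hδ1 S c e hunit hgeo hρ1 hB hsp
  set M : ℕ := ⌊(5 * ((d : ℝ) + 1) + 2) * B⌋₊ with hM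
  have hMB : (M : ℝ) ≤ (5 * ((d : ℝ) + 1) + 2) * B := Nat.floor_le (by positivity)
  have h1 := hlev2 m₀ (by omega) δ hδ hδ1 hδm ι S c e hunit M (by
    intro k z a b
    exact Nat.le_floor (hcells k z a b)) r hr
  refine (vol_of_mul hr h1).trans (ENNReal.ofReal_le_ofReal ?_)
  have h2 : ((M : ℝ) / r) ^ (2 / (d : ℝ)) ≤
      (5 * ((d : ℝ) + 1) + 2) ^ (2 / (d : ℝ)) * (B / r) ^ (2 / (d : ℝ)) := by
    rw [← Real.mul_rpow (by positivity) (by positivity)]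
    apply Real.rpow_le_rpow (by positivity) _ (by positivity)
    rw [← mul_div_assoc]
    gcongr
  calc C * (2 ^ (2 * (κ * m₀))) ^ ε * ((M : ℝ) / r) ^ (2 / (d : ℝ)) * (δ ^ d * S.card) / r
      ≤ C * (K₀ ^ 2 / ρ ^ 2) ^ ε *
        ((5 * ((d : ℝ) + 1) + 2) ^ (2 / (d : ℝ)) * (B / r) ^ (2 / (d : ℝ))) *
          (δ ^ d * S.card) / r := by gcongr
    _ = _ := by ring

/-- **The richness bound for every family.** -/
theorem rich (hd : 1 ≤ d) {ε : ℝ} (hε : 0 < ε) :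
    ∃ C : ℝ, 0 < C ∧ ∀ δ : ℝ, 0 < δ → δ ≤ 1 / (16 * ((d : ℝ) + 1) ^ 2) → ∀ (ι : Type)
      (S : Finset ι) (c e : ι → E d), (∀ i ∈ S, ‖e i‖ = 1) → ∀ B : ℝ, 0 ≤ B →
      SpreadF δ (√δ) B c e S → ∀ r : ℝ, 0 < r → volume {x | r ≤ mu δ c e S x} ≤
        ENNReal.ofReal (C * δ ^ ((d : ℝ) - ε) * S.card * B ^ (2 / (d : ℝ)) *
          r ^ (-(1 + 2 / (d : ℝ)))) := by
  have hd0 : (0 : ℝ) < d := by exact_mod_cast hd
  obtain ⟨K₀, hK₀, h⟩ := level_spread (d := d) hd hε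
  obtain ⟨C, hC, hlev⟩ := h 1 zero_le_one
  have hK₀0 : 0 < K₀ := by linarith
  refine ⟨C * (K₀ ^ 2) ^ ε, by positivity, ?_⟩
  intro δ hδ hδ1 ι S c e hunit B hB hsp r hr
  have hd1 : (1 : ℝ) ≤ (d : ℝ) + 1 := by linarith
  have hsq : √δ ^ 2 = δ := Real.sq_sqrt hδ.le
  have hρ0 : 0 < √δ := Real.sqrt_pos.mpr hδ
  have hsm : √δ ≤ 1 / (4 * ((d : ℝ) + 1)) := by
    apply Real.sqrt_le_iff.mpr
    refine ⟨by positivity, hδ1.trans (le_of_eq ?_)⟩
    field_simp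
    norm_num
  have hρ1 : √δ ≤ 1 := hsm.trans (by
    rw [div_le_one (by positivity)]; linarith)
  have hδlt : δ < 1 := by
    refine lt_of_le_of_lt hδ1 ?_
    rw [div_lt_one (by positivity)]
    nlinarith
  have h4 : 4 * ((d : ℝ) + 1) * δ ≤ √δ := by
    rw [le_div_iff₀ (by positivity)] at hsm
    calc 4 * ((d : ℝ) + 1) * δ = (√δ * (4 * ((d : ℝ) + 1))) * √δ := by
          nth_rewrite 1 [← hsq]; ring
      _ ≤ 1 * √δ := by gcongr
      _ = √δ := one_mul _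
  refine (hlev δ (√δ) hδ hδlt hρ0 hρ1 (by rw [hsq, one_mul]) h4 ι S c e hunit B hB hsp r hr).trans
    (ENNReal.ofReal_le_ofReal (le_of_eq ?_))
  rw [hsq, Real.div_rpow (by positivity) hδ.le, Real.div_rpow hB hr.le, Real.rpow_sub hδ,
    Real.rpow_neg hr.le, Real.rpow_add hr, Real.rpow_one, Real.rpow_natCast]
  field_simp

lemma min_one_le_rpow {Y a : ℝ} (hY : 0 ≤ Y) (ha : 0 < a) (ha1 : a ≤ 1) : min 1 Y ≤ Y ^ a := by
  rcases hY.eq_or_lt with h0 | h0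
  · rw [← h0, Real.zero_rpow ha.ne']
    exact min_le_right _ _
  · rcases le_total Y 1 with h1 | h1
    · refine (min_le_right _ _).trans ?_
      calc Y = Y ^ (1 : ℝ) := (Real.rpow_one Y).symm
        _ ≤ Y ^ a := Real.rpow_le_rpow_of_exponent_ge h0 h1 ha1
    · exact (min_le_left _ _).trans (Real.one_le_rpow h1 ha.le)

/-- the weak-type bound for spread families -/
theorem spread_weak (hd : 1 ≤ d) {θ A t : ℝ} (hA : 0 ≤ A) (ht1 : 1 ≤ t)
    (ht : t < 2 * (1 - θ)) :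
    ∃ W : ℝ, 0 ≤ W ∧ ∀ δ : ℝ, 0 < δ → δ < 1 → ∀ (ι : Type) (S : Finset ι) (c e : ι → E d),
      Fam δ e S → 0 < S.card →
      SpreadF δ ((S.card : ℝ) ^ (-(1 / (2 * (d : ℝ))))) (A * (S.card : ℝ) ^ θ) c e S →
      ∀ s : ℝ, 0 < s → s ≤ 1 → volume {x | s * S.card ≤ mu δ c e S x} ≤ ENNReal.ofReal
        (W * s ^ (-(1 + 2 / ((d : ℝ) * t))) * (δ ^ d * (S.card : ℝ) ^ (-(1 / (d : ℝ))))) := by
  have hd0 : (0 : ℝ) < d := by exact_mod_cast hd
  have ht0 : 0 < t := by linarith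
  set ε : ℝ := 2 * (1 - θ) - t with hε
  have hε0 : 0 < ε := by rw [hε]; linarith
  obtain ⟨K₀, hK₀, h⟩ := level_spread (d := d) hd hε0
  have hK₀0 : 0 < K₀ := by linarith
  have hCG := CG_pos d
  set G : ℝ := (CG d * 3 ^ d) ^ (1 / (d : ℝ)) with hG
  have hG0 : 0 < G := by positivity
  obtain ⟨C, hC, hlev⟩ := h G hG0.le
  set C1 : ℝ := C + 2 ^ d with hC1
  have hC10 : 0 < C1 := by positivity
  set a : ℝ := 1 / t with ha
  have ha0 : 0 < a := by positivity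
  have ha1 : a ≤ 1 := by rw [ha, div_le_one ht0]; exact ht1
  set Q : ℝ := ((K₀ ^ 2) ^ ε * A ^ (2 / (d : ℝ))) ^ a with hQ
  have hQ0 : 0 ≤ Q := by positivity
  refine ⟨C1 * Q + 2 ^ d * (4 * ((d : ℝ) + 1) * G) ^ 2, by positivity, ?_⟩
  intro δ hδ hδ1 ι S c e hF hS hsp s hs hs1
  set N : ℝ := (S.card : ℝ) with hN
  have hN1 : 1 ≤ N := by rw [hN]; exact_mod_cast hS
  have hN0 : 0 < N := by linarith
  have hsN : 0 < s * N := by positivity
  set ρ : ℝ := N ^ (-(1 / (2 * (d : ℝ)))) with hρ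
  have hρ0 : 0 < ρ := by positivity
  have hρ1 : ρ ≤ 1 := Real.rpow_le_one_of_one_le_of_nonpos hN1 (by
    rw [neg_nonpos]; positivity)
  have hρ2 : ρ ^ 2 = N ^ (-(1 / (d : ℝ))) := by
    rw [hρ, ← Real.rpow_natCast, ← Real.rpow_mul hN0.le]
    congr 1
    push_cast
    field_simp
  have hδG : δ ≤ G * ρ ^ 2 := by
    have h1 := card_le_all hδ hδ1 hF
    have h2 : δ ^ d ≤ CG d * 3 ^ d * N⁻¹ := by
      rw [← hN] at h1
      rw [← div_eq_mul_inv, le_div_iff₀ hN0]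
      calc δ ^ d * N ≤ δ ^ d * (CG d * 3 ^ d * (δ ^ d)⁻¹) := by gcongr
        _ = CG d * 3 ^ d := by field_simp
    have h3 : δ = (δ ^ d) ^ (1 / (d : ℝ)) := by
      rw [← Real.rpow_natCast, ← Real.rpow_mul hδ.le]
      have : (d : ℝ) * (1 / d) = 1 := by field_simp
      rw [this, Real.rpow_one]
    calc δ = (δ ^ d) ^ (1 / (d : ℝ)) := h3
      _ ≤ (CG d * 3 ^ d * N⁻¹) ^ (1 / (d : ℝ)) :=
          Real.rpow_le_rpow (by positivity) h2 (by positivity)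
      _ = G * ρ ^ 2 := by
          have hc0 : 0 ≤ CG d * 3 ^ d := by positivity
          have hn0 : 0 ≤ N⁻¹ := inv_nonneg.mpr hN0.le
          rw [Real.mul_rpow hc0 hn0, hρ2, Real.rpow_neg hN0.le, Real.inv_rpow hN0.le]
  -- the trivial bound
  have htriv : volume {x | s * N ≤ mu δ c e S x} ≤ ENNReal.ofReal (2 ^ d * δ ^ d / s) := by
    refine (level_trivial hδ.le c e S hF.unit (measurableSet_level δ c e S (s * N)) hsN
      (fun x hx => hx)).trans (ENNReal.ofReal_le_ofReal (le_of_eq ?_))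
    rw [mul_pow, ← hN]
    field_simp
  set q' : ℝ := 1 + 2 / ((d : ℝ) * t) with hq'
  have hq'1 : 1 ≤ q' := by
    rw [hq']
    have : 0 < 2 / ((d : ℝ) * t) := by positivity
    linarith
  rcases le_or_gt (4 * ((d : ℝ) + 1) * G * ρ) 1 with hcase | hcase
  · -- many tubes
    have h4 : 4 * ((d : ℝ) + 1) * δ ≤ ρ := by
      calc 4 * ((d : ℝ) + 1) * δ ≤ 4 * ((d : ℝ) + 1) * (G * ρ ^ 2) := by gcongr
        _ = (4 * ((d : ℝ) + 1) * G * ρ) * ρ := by ring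
        _ ≤ 1 * ρ := by gcongr
        _ = ρ := one_mul _
    have h5 := hlev δ ρ hδ hδ1 hρ0 hρ1 hδG h4 ι S c e hF.unit (A * N ^ θ) (by positivity) hsp
      (s * N) hsN
    set Y : ℝ := (K₀ ^ 2 / ρ ^ 2) ^ ε * ((A * N ^ θ) / (s * N)) ^ (2 / (d : ℝ)) with hY
    have hY0 : 0 ≤ Y := by positivity
    have h6 : volume {x | s * N ≤ mu δ c e S x} ≤
        ENNReal.ofReal (C1 * (δ ^ d / s) * min 1 Y) := by
      rcases le_total 1 Y with hY1 | hY1
      · rw [min_eq_left hY1, mul_one]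
        refine htriv.trans (ENNReal.ofReal_le_ofReal ?_)
        rw [mul_div_assoc]
        have : (2 : ℝ) ^ d ≤ C1 := by rw [hC1]; linarith
        gcongr
      · rw [min_eq_right hY1]
        refine h5.trans (ENNReal.ofReal_le_ofReal ?_)
        have e1 : C * (K₀ ^ 2 / ρ ^ 2) ^ ε * (A * N ^ θ / (s * N)) ^ (2 / (d : ℝ)) *
            (δ ^ d * N) / (s * N) = C * (δ ^ d / s) * Y := by
          rw [hY]
          generalize (K₀ ^ 2 / ρ ^ 2) ^ ε = X1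
          generalize (A * N ^ θ / (s * N)) ^ (2 / (d : ℝ)) = X2
          generalize δ ^ d = X3
          field_simp
        rw [← hN, e1]
        have : C ≤ C1 := by rw [hC1]; have : (0 : ℝ) < 2 ^ d := by positivity
                            linarith
        gcongr
    refine h6.trans (ENNReal.ofReal_le_ofReal ?_)
    have h7 : min 1 Y ≤ Q * s ^ (-(2 / ((d : ℝ) * t))) * N ^ (-(1 / (d : ℝ))) := by
      refine (min_one_le_rpow hY0 ha0 ha1).trans (le_of_eq ?_)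
      have e1 : Y = ((K₀ ^ 2) ^ ε * A ^ (2 / (d : ℝ))) * (s ^ (-(2 / (d : ℝ))) *
          N ^ (-(t / (d : ℝ)))) := by
        rw [hY, hρ2, Real.div_rpow (by positivity) (by positivity),
          Real.div_rpow (by positivity) (by positivity), Real.mul_rpow hA (by positivity),
          Real.mul_rpow hs.le hN0.le, ← Real.rpow_mul hN0.le, ← Real.rpow_mul hN0.le]
        have e2 : N ^ (-(t / (d : ℝ))) =
            N ^ (θ * (2 / (d : ℝ))) / (N ^ (2 / (d : ℝ)) * N ^ (-(1 / (d : ℝ)) * ε)) := by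
          rw [← Real.rpow_add hN0, ← Real.rpow_sub hN0]
          congr 1
          rw [hε]
          field_simp
          ring
        rw [e2, Real.rpow_neg hs.le]
        field_simp
      rw [e1, Real.mul_rpow (by positivity) (by positivity), ← hQ,
        Real.mul_rpow (by positivity) (by positivity), ← Real.rpow_mul hs.le,
        ← Real.rpow_mul hN0.le]
      have e3 : -(2 / (d : ℝ)) * a = -(2 / ((d : ℝ) * t)) := by rw [ha]; field_simp
      have e4 : -(t / (d : ℝ)) * a = -(1 / (d : ℝ)) := by rw [ha]; field_simp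
      rw [e3, e4]
      ring
    have e5 : s ^ (-q') = s⁻¹ * s ^ (-(2 / ((d : ℝ) * t))) := by
      rw [hq', neg_add, Real.rpow_add hs, Real.rpow_neg_one]
    calc C1 * (δ ^ d / s) * min 1 Y
        ≤ C1 * (δ ^ d / s) * (Q * s ^ (-(2 / ((d : ℝ) * t))) * N ^ (-(1 / (d : ℝ)))) := by
          gcongr
      _ = (C1 * Q) * s ^ (-q') * (δ ^ d * N ^ (-(1 / (d : ℝ)))) := by
          rw [e5]
          field_simp
      _ ≤ _ := by
          gcongr
          have : 0 ≤ (2 : ℝ) ^ d * (4 * ((d : ℝ) + 1) * G) ^ 2 := by positivity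
          linarith
  · -- few tubes
    refine htriv.trans (ENNReal.ofReal_le_ofReal ?_)
    have h1 : 1 ≤ (4 * ((d : ℝ) + 1) * G) ^ 2 * N ^ (-(1 / (d : ℝ))) := by
      rw [← hρ2, ← mul_pow]
      exact one_le_pow₀ hcase.le
    have h2 : s⁻¹ ≤ s ^ (-q') := by
      rw [← Real.rpow_neg_one]
      exact Real.rpow_le_rpow_of_exponent_ge hs hs1 (by linarith)
    calc 2 ^ d * δ ^ d / s = 2 ^ d * δ ^ d * s⁻¹ * 1 := by rw [div_eq_mul_inv, mul_one]
      _ ≤ 2 ^ d * δ ^ d * s ^ (-q') * ((4 * ((d : ℝ) + 1) * G) ^ 2 * N ^ (-(1 / (d : ℝ)))) := by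
          gcongr
      _ = (2 ^ d * (4 * ((d : ℝ) + 1) * G) ^ 2) * s ^ (-q') * (δ ^ d * N ^ (-(1 / (d : ℝ)))) := by
          ring
      _ ≤ _ := by
          gcongr
          have : 0 ≤ C1 * Q := by positivity
          linarith

/-- **The inequality of Q1 for spread families.** -/
theorem spread_strong (hd : 1 ≤ d) {θ A q : ℝ} (hθ : θ < 1 / 2)
    (hq : 1 + 1 / ((1 - θ) * (d : ℝ)) < q) :
    ∃ C : ℝ, ∀ δ : ℝ, 0 < δ → δ < 1 → ∀ (ι : Type) (S : Finset ι) (c e : ι → E d),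
      Fam δ e S →
      SpreadF δ ((S.card : ℝ) ^ (-(1 / (2 * (d : ℝ))))) (A * (S.card : ℝ) ^ θ) c e S →
      eLpNorm (fun x => (mu δ c e S x : ℝ)) (ENNReal.ofReal q) volume ≤
        ENNReal.ofReal (C * (δ ^ ((d : ℝ) / q) * (S.card : ℝ) ^ (1 - 1 / (q * d)))) := by
  have hd0 : (0 : ℝ) < d := by exact_mod_cast hd
  have hθ1 : 0 < 1 - θ := by linarith
  have hq1 : 0 < q - 1 := by
    have : 0 < 1 / ((1 - θ) * (d : ℝ)) := by positivity
    linarith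
  set t₀ : ℝ := max 1 (2 / ((d : ℝ) * (q - 1))) with ht₀
  have hlt : t₀ < 2 * (1 - θ) := by
    rw [ht₀, max_lt_iff]
    constructor
    · linarith
    · rw [div_lt_iff₀ (by positivity)]
      have h1 : 1 / ((1 - θ) * (d : ℝ)) < q - 1 := by linarith
      rw [div_lt_iff₀ (by positivity)] at h1
      nlinarith
  set t : ℝ := (t₀ + 2 * (1 - θ)) / 2 with ht
  have ht1 : 1 ≤ t := by
    have : 1 ≤ t₀ := le_max_left _ _
    rw [ht]; linarith
  have ht0 : 0 < t := by linarith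
  have ht2 : t < 2 * (1 - θ) := by rw [ht]; linarith
  have htt : 2 / ((d : ℝ) * (q - 1)) < t := by
    have : 2 / ((d : ℝ) * (q - 1)) ≤ t₀ := le_max_right _ _
    rw [ht]; linarith
  set A' : ℝ := max A 0 with hA'
  obtain ⟨W, hW, hw⟩ := spread_weak (d := d) hd (θ := θ) (A := A') (t := t) (le_max_right _ _)
    ht1 ht2
  set q' : ℝ := 1 + 2 / ((d : ℝ) * t) with hq'
  have hq'0 : 0 < q' := by positivity
  have hq'q : q' < q := by
    rw [div_lt_iff₀ (by positivity)] at htt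
    have : 2 / ((d : ℝ) * t) < q - 1 := by
      rw [div_lt_iff₀ (by positivity)]
      linarith
    rw [hq']; linarith
  refine ⟨(W * 2 ^ q' / (1 - (1 / 2) ^ (q - q'))) ^ (1 / q), ?_⟩
  intro δ hδ hδ1 ι S c e hF hsp
  rcases Nat.eq_zero_or_pos S.card with h0 | hpos
  · have h1 : (fun x => (mu δ c e S x : ℝ)) = fun _ => 0 := by
      funext x
      have := mu_le_card δ c e S x
      rw [h0] at this
      have h2 : mu δ c e S x = 0 := by omega
      rw [h2, Nat.cast_zero]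
    rw [h1, eLpNorm_zero']
    exact bot_le
  · have hsp' : SpreadF δ ((S.card : ℝ) ^ (-(1 / (2 * (d : ℝ))))) (A' * (S.card : ℝ) ^ θ) c e S := by
      intro i hi
      refine (hsp i hi).trans ?_
      gcongr
      exact le_max_left _ _
    exact strong_of_weak (q' := q') hq'0 hq'q hW hδ hd S c e hpos
      (fun s hs hs1 => hw δ hδ hδ1 ι S c e hF hpos hsp' s hs hs1)

end Pool.Agent.H76.Spr
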