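import Pool.Agent.H53.Dense.Line
import Pool.Agent.H53.Kak.WRec

/-!
# Tubes and lines on a grid: geometry
-/

set_option autoImplicit false

open MeasureTheory ENNReal
open scoped RealInnerProductSpace

namespace Pool.Agent.H76.Spr

open Pool.Agent.H53.Kak Pool.Agent.H32.Dense Pool.Agent.H53.Dns

variable {d : ℕ} {ι : Type}

/-- base point, in units of `2 ^ (-m)`, of the line in the window `z` -/
noncomputable def lu (k : Fin (d + 1)) (m : ℕ) (z : ℤ) (c e : E d) (l : Fin d) : ℝ :=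
  2 ^ m * psl k c e z l

/-- velocity of the line -/
noncomputable def lv (k : Fin (d + 1)) (m : ℕ) (e : E d) (l : Fin d) : ℝ := 2 ^ m * slp k e l

/-- cell of the line at the time `j` of the window `z` -/
noncomputable def lc (k : Fin (d + 1)) (m : ℕ) (z : ℤ) (c e : E d) (j : ℤ) : Fin d → ℤ :=
  rd (fun l => lu k m z c e l + (j : ℝ) / 2 ^ m * lv k m e l)

lemma lv_le {k : Fin (d + 1)} {e : E d} (h : Mx k e) (he : ‖e‖ = 1) (m : ℕ) (l : Fin d) :
    |lv k m e l| ≤ 1 * 2 ^ m := by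
  rw [lv, abs_mul, abs_of_pos (by positivity : (0 : ℝ) < 2 ^ m), one_mul]
  have := h.slp he l
  nlinarith [show (0 : ℝ) < 2 ^ m by positivity]

/-- a point of a tube is near the cell of the line -/
lemma lc_near {δ : ℝ} (hδ : 0 ≤ δ) {k : Fin (d + 1)} {c e x : E d} (h : Mx k e) (he : ‖e‖ = 1)
    {m : ℕ} {K : ℝ} (hδm : δ * 2 ^ m ≤ K) (hx : x ∈ tube δ c e) {z j : ℤ}
    (hxj : x ∈ (slab k m (j + z * 2 ^ m) : Set (E d))) (l : Fin d) :
    |2 ^ m * x (k.succAbove l) - (lc k m z c e j l : ℝ)| ≤ 2 * K + 2 := by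
  have h2m : (0 : ℝ) < 2 ^ m := by positivity
  have h1 := near_psl hδ h he hx l
  have h2 : |2 ^ m * x (k.succAbove l) - 2 ^ m * psl k c e (x k) l| ≤ 2 * K := by
    rw [← mul_sub, abs_mul, abs_of_pos h2m]
    nlinarith
  obtain ⟨f, hf⟩ : ∃ f, f = x k * 2 ^ m - ((j : ℝ) + z * 2 ^ m) := ⟨_, rfl⟩
  have hf0 : 0 ≤ f ∧ f < 1 := by
    have h3 : ⌊x k * 2 ^ m⌋ = j + z * 2 ^ m := hxj
    rw [Int.floor_eq_iff] at h3
    push_cast at h3
    constructor <;> linarith [h3.1, h3.2]
  have e1 : 2 ^ m * psl k c e (x k) l - (lu k m z c e l + (j : ℝ) / 2 ^ m * lv k m e l) =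
      f * slp k e l := by
    rw [hf]
    simp only [lu, lv, psl]
    field_simp
    ring
  have e2 : |2 ^ m * psl k c e (x k) l - (lu k m z c e l + (j : ℝ) / 2 ^ m * lv k m e l)| ≤ 1 := by
    rw [e1, abs_mul, abs_of_nonneg hf0.1]
    have := h.slp he l
    nlinarith [abs_nonneg (slp k e l), hf0.1, hf0.2]
  have e3 : |(lu k m z c e l + (j : ℝ) / 2 ^ m * lv k m e l) - (lc k m z c e j l : ℝ)| ≤ 1 := by
    simp only [lc, rd]
    have h3 := Int.floor_le (lu k m z c e l + (j : ℝ) / 2 ^ m * lv k m e l)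
    have h4 := Int.lt_floor_add_one (lu k m z c e l + (j : ℝ) / 2 ^ m * lv k m e l)
    rw [abs_le]
    constructor <;> linarith
  rw [abs_le] at h2 e2 e3 ⊢
  constructor <;> linarith [h2.1, h2.2, e2.1, e2.2, e3.1, e3.2]

/-- the constant in the volume of a tube in a slab -/
noncomputable def Vc (d : ℕ) (K : ℝ) : ℝ := 2 ^ d * (2 * (((d : ℝ) + 1) * (1 + K)))

lemma Vc_pos (d : ℕ) {K : ℝ} (hK : 0 ≤ K) : 0 < Vc d K := by rw [Vc]; positivity

/-- the volume of the part of a tube in a slab -/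
lemma vol_slabK {δ : ℝ} (hδ : 0 ≤ δ) {k : Fin (d + 1)} {c e : E d} (h : Mx k e) (he : ‖e‖ = 1)
    {m : ℕ} {K : ℝ} (hδm : δ * 2 ^ m ≤ K) (j : ℤ) :
    volume (tube δ c e ∩ slab k m j) ≤ ENNReal.ofReal (Vc d K * δ ^ d / 2 ^ m) := by
  have h2m : (0 : ℝ) < 2 ^ m := by positivity
  have hk := h.ne he
  have hkp := h.pos he
  have habs : 0 < |e k| := abs_pos.mpr hk
  refine (measure_mono ?_).trans ((volume_slab_le δ hδ c e he (((j : ℝ) / 2 ^ m - c k) / e k)
    (((d : ℝ) + 1) * ((1 + K) / 2 ^ m))).trans (le_of_eq ?_))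
  · rintro x ⟨hx, hxj⟩
    refine ⟨hx, ?_⟩
    obtain ⟨s, w, h1, h2, -, h4⟩ := tube_decomp hx
    rw [← h4]
    have e1 : x k = c k + s * e k + w k := by
      have h3 : (x - c) k = (s • e + w) k := by rw [h1]
      simp only [PiLp.sub_apply, PiLp.add_apply, PiLp.smul_apply, smul_eq_mul] at h3
      linarith
    have h5 : ⌊x k * 2 ^ m⌋ = j := hxj
    rw [Int.floor_eq_iff] at h5
    have e2 : s - ((j : ℝ) / 2 ^ m - c k) / e k = (x k - j / 2 ^ m - w k) / e k := by
      rw [e1]; field_simp; ring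
    rw [e2, abs_div, div_le_iff₀ habs]
    have h6 : |x k - j / 2 ^ m| ≤ 1 / 2 ^ m := by
      have h8 : x k - j / 2 ^ m = (x k * 2 ^ m - j) * (1 / 2 ^ m) := by field_simp
      rw [h8, abs_mul, abs_of_pos (by positivity : (0 : ℝ) < 1 / 2 ^ m), abs_of_nonneg (by linarith)]
      have h9 : x k * 2 ^ m - j ≤ 1 := by linarith
      calc (x k * 2 ^ m - j) * (1 / 2 ^ m) ≤ 1 * (1 / 2 ^ m) := by gcongr
        _ = 1 / 2 ^ m := one_mul _
    have h7 : |w k| ≤ K / 2 ^ m := ((coord_le w k).trans h2).trans (by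
      rw [le_div_iff₀ h2m]; exact hδm)
    have hK1 : (0 : ℝ) ≤ (1 + K) / 2 ^ m := by
      have : (0 : ℝ) ≤ K := (by positivity : (0 : ℝ) ≤ δ * 2 ^ m).trans hδm
      positivity
    calc |x k - j / 2 ^ m - w k| ≤ |x k - j / 2 ^ m| + |w k| := abs_sub _ _
      _ ≤ 1 / 2 ^ m + K / 2 ^ m := by linarith
      _ = ((d : ℝ) + 1) * ((1 + K) / 2 ^ m) * (1 / ((d : ℝ) + 1)) := by field_simp
      _ ≤ ((d : ℝ) + 1) * ((1 + K) / 2 ^ m) * |e k| := by gcongr
  · congr 1
    rw [Vc, mul_pow]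
    ring

/-- the norm of the orthogonal part -/
lemma perp_le {e w : E d} (he : ‖e‖ = 1) : ‖w - ⟪w, e⟫ • e‖ ≤ ‖w‖ := by
  have h1 : ‖w - ⟪w, e⟫ • e‖ ^ 2 = ‖w‖ ^ 2 - ⟪w, e⟫ ^ 2 := by
    rw [norm_sub_sq_real, inner_smul_right, norm_smul, he, mul_one, Real.norm_eq_abs, sq_abs]
    ring
  apply le_of_sq_le_sq _ (norm_nonneg _)
  rw [h1]
  nlinarith [sq_nonneg ⟪w, e⟫]

/-- a point close to the line of a tube at its own height -/
lemma near_line {k : Fin (d + 1)} {c e x : E d} (h : Mx k e) (he : ‖e‖ = 1) {r : ℝ} (hr : 0 ≤ r)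
    (hx : ∀ l, |x (k.succAbove l) - psl k c e (x k) l| ≤ r) :
    ∃ w : E d, x - c = ((x k - c k) / e k) • e + w ∧ ‖w‖ ≤ ((d : ℝ) + 1) * r := by
  have hk := h.ne he
  refine ⟨x - c - ((x k - c k) / e k) • e, by abel, ?_⟩
  apply norm_le_of_coord hr
  intro i
  simp only [PiLp.sub_apply, PiLp.smul_apply, smul_eq_mul]
  rcases eq_or_ne i k with rfl | hi
  · rw [div_mul_cancel₀ _ hk, sub_self, abs_zero]
    exact hr
  · obtain ⟨l, rfl⟩ := Fin.exists_succAbove_eq hi
    have := hx l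
    rw [psl, slp] at this
    have e1 : x (k.succAbove l) - c (k.succAbove l) - (x k - c k) / e k * e (k.succAbove l) =
        x (k.succAbove l) - (c (k.succAbove l) + (x k - c k) * (e (k.succAbove l) / e k)) := by
      ring
    rw [e1]
    exact this

/-- if the line of a tube is close to the line of another one in a window, and the centres have
close heights, then the first tube is contained in a fat tube about the second one -/
lemma fat {δ ρ s : ℝ} (hδ : 0 ≤ δ) (hδ1 : δ < 1) (hs : 0 ≤ s) {k : Fin (d + 1)}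
    {c e c' e' : E d} (h : Mx k e) (he : ‖e‖ = 1) (h' : Mx k e') (he' : ‖e'‖ = 1) {z : ℝ}
    (hc : |c' k - z| ≤ 5 / 2) (hu : ∀ l, |psl k c e z l - psl k c' e' z l| ≤ s)
    (hv : ∀ l, |slp k e l - slp k e' l| ≤ s) (hcc : |c' k - c k| ≤ 1 / ((d : ℝ) + 1))
    (hρ : ((d : ℝ) + 1) * (5 * s + 2 * δ) ≤ ρ) (hρ1 : ρ ≤ 1) :
    tube δ c' e' ⊆ {x | |⟪x - c, e⟫| ≤ 3 ∧ ‖(x - c) - ⟪x - c, e⟫ • e‖ ≤ ρ} := by
  have hd1 : (1 : ℝ) ≤ (d : ℝ) + 1 := by
    have : (0 : ℝ) ≤ d := Nat.cast_nonneg d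
    linarith
  have hkp := h.pos he
  have habs : 0 < |e k| := abs_pos.mpr (h.ne he)
  have hr0 : 0 ≤ 5 * s + 2 * δ := by positivity
  -- every point of the second tube is near the first line
  have hnear : ∀ x ∈ tube δ c' e', ∃ w : E d, x - c = ((x k - c k) / e k) • e + w ∧ ‖w‖ ≤ ρ := by
    intro x hx
    have h1 := height_near (k := k) hδ1 he' hx
    have h2 : |x k - z| ≤ 4 := by
      have : x k - z = (x k - c' k) + (c' k - z) := by ring
      rw [this]
      refine (abs_add_le _ _).trans ?_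
      linarith
    obtain ⟨w, hw1, hw2⟩ := near_line (x := x) (c := c) h he hr0 (by
      intro l
      have h3 := near_psl hδ h' he' hx l
      have h4 : psl k c' e' (x k) l - psl k c e (x k) l =
          -(psl k c e z l - psl k c' e' z l) - (x k - z) * (slp k e l - slp k e' l) := by
        simp only [psl]
        ring
      have h5 : |psl k c' e' (x k) l - psl k c e (x k) l| ≤ 5 * s := by
        rw [h4]
        refine (abs_sub _ _).trans ?_
        rw [abs_neg, abs_mul]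
        have := hu l
        have := hv l
        nlinarith [abs_nonneg (x k - z), abs_nonneg (slp k e l - slp k e' l)]
      have h6 : x (k.succAbove l) - psl k c e (x k) l =
          (x (k.succAbove l) - psl k c' e' (x k) l) + (psl k c' e' (x k) l - psl k c e (x k) l) := by
        ring
      rw [h6]
      refine (abs_add_le _ _).trans ?_
      linarith)
    exact ⟨w, hw1, hw2.trans hρ⟩
  intro x hx
  obtain ⟨w, hw1, hw2⟩ := hnear x hx
  constructor
  · -- the centre of the second tube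
    have hcmem : c' ∈ tube δ c' e' := by
      refine ⟨?_, ?_⟩
      · rw [sub_self, inner_zero_left, abs_zero]; norm_num
      · rw [sub_self, inner_zero_left, zero_smul, sub_zero, norm_zero]; exact hδ
    obtain ⟨w', hw1', hw2'⟩ := hnear c' hcmem
    obtain ⟨t, v, g1, g2, g3, -⟩ := tube_decomp hx
    have e1 : ⟪x - c, e⟫ = ⟪x - c', e⟫ + ⟪c' - c, e⟫ := by
      rw [← inner_add_left]
      congr 1
      abel
    have e2 : |⟪x - c', e⟫| ≤ 1 / 2 + δ := by
      refine (abs_real_inner_le_norm _ _).trans ?_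
      rw [he, mul_one, g1]
      refine (norm_add_le _ _).trans ?_
      rw [norm_smul, he', mul_one, Real.norm_eq_abs]
      linarith
    have e3 : |⟪c' - c, e⟫| ≤ 1 + ρ := by
      rw [hw1', inner_add_left, inner_smul_left, real_inner_self_eq_norm_sq, he]
      simp only [conj_trivial, one_pow, mul_one]
      refine (abs_add_le _ _).trans ?_
      have e4 : |(c' k - c k) / e k| ≤ 1 := by
        rw [abs_div, div_le_one habs]
        linarith
      have e5 : |⟪w', e⟫| ≤ ρ := by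
        refine (abs_real_inner_le_norm _ _).trans ?_
        rw [he, mul_one]
        exact hw2'
      linarith
    have e6 : δ ≤ 1 / 2 := by
      have : 2 * δ ≤ ((d : ℝ) + 1) * (5 * s + 2 * δ) := by nlinarith
      linarith
    rw [e1]
    refine (abs_add_le _ _).trans ?_
    linarith
  · have e1 : (x - c) - ⟪x - c, e⟫ • e = w - ⟪w, e⟫ • e := by
      rw [hw1, inner_add_left, inner_smul_left, real_inner_self_eq_norm_sq, he]
      simp only [conj_trivial, one_pow, mul_one]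
      rw [add_smul]
      abel
    rw [e1]
    exact (perp_le he).trans hw2

end Pool.Agent.H76.Spr
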