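import Pool.Agent.H76.Spr.Chain

/-!
# Counting incidences of lines which are spread at the middle scale
-/

set_option autoImplicit false

namespace Pool.Agent.H76.Spr

open Finset Real
open Pool.Agent.H49.Ent Pool.Agent.H32.Dense

/-- The constant of one step. -/
noncomputable def LL (k : ℕ) : ℝ := 4 * Real.log 7 + Real.log (3 + 2 * Real.log k)

section Ent

variable {d : ℕ} {Ω ζ : Type} [Fintype Ω]

lemma vec_scale {k : ℕ} (hk : 1 ≤ k) {p : Ω → ℝ} (hp : ∀ ω, 0 ≤ p ω) (h1 : ∑ ω, p ω = 1)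
    {S : Type} (W : Ω → S) (x : Ω → Fin d → ℝ) (m α : ℕ)
    (h : Det p W (fun ω => rd (fun i => x ω i / (k : ℝ) ^ α))) :
    CH p (fun ω => rd (fun i => x ω i / (k : ℝ) ^ m)) W ≤
      d * (Real.log 5 + ((α - m : ℕ) : ℝ) * Real.log k) := by
  have hk0 : (0 : ℝ) < k := by exact_mod_cast hk
  have hk1 : (1 : ℝ) ≤ k := by exact_mod_cast hk
  have e1 := CH_le_vec hp h1 (fun ω => rd (fun i => x ω i / (k : ℝ) ^ m)) W
    (fun _ => (k : ℝ) ^ (α - m) + 1) (by
    intro ω ω' a a' h' i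
    have h2 := rd_eq_abs (h ω ω' a a' h') i
    simp only [rd_apply]
    refine (floor_diff _ _).trans ?_
    apply add_le_add _ le_rfl
    have h3 : x ω i / (k : ℝ) ^ α - x ω' i / (k : ℝ) ^ α = (x ω i - x ω' i) / (k : ℝ) ^ α := by
      ring
    have h4 : x ω i / (k : ℝ) ^ m - x ω' i / (k : ℝ) ^ m = (x ω i - x ω' i) / (k : ℝ) ^ m := by
      ring
    rw [h3, abs_div, abs_of_pos (pow_pos hk0 α), div_le_one (pow_pos hk0 α)] at h2
    rw [h4, abs_div, abs_of_pos (pow_pos hk0 m), div_le_iff₀ (pow_pos hk0 m), ← pow_add]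
    refine h2.trans (pow_le_pow_right₀ hk1 (by omega)))
  refine e1.trans ?_
  rw [Ex_const h1]
  apply mul_le_mul_of_nonneg_left _ (Nat.cast_nonneg d)
  have h5 : (1 : ℝ) ≤ (k : ℝ) ^ (α - m) := one_le_pow₀ hk1
  calc Real.log (2 * ((k : ℝ) ^ (α - m) + 1) + 1) ≤ Real.log (5 * (k : ℝ) ^ (α - m)) := by
        apply Real.log_le_log (by positivity)
        linarith
    _ = Real.log 5 + ((α - m : ℕ) : ℝ) * Real.log k := by
        rw [Real.log_mul (by norm_num) (by positivity), Real.log_pow]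

lemma GG_zero_low {k n m : ℕ} (hk : 1 ≤ k) {p : Ω → ℝ} (hp : ∀ ω, 0 ≤ p ω) (h1 : ∑ ω, p ω = 1)
    (u v : Ω → Fin d → ℝ) (τ : Ω → ℤ) (α : ℕ) :
    GG k n p u v τ 0 m ≤ GG k n p u v τ 0 α +
      2 * (d * (Real.log 5 + ((α - m : ℕ) : ℝ) * Real.log k)) := by
  set V : Ω → ((Fin d → ℤ) × (Fin d → ℤ)) × ℤ :=
    fun ω => ((rd (fun i => xx k n u v τ 0 ω i / (k : ℝ) ^ α),
      rd (fun i => v ω i / (k : ℝ) ^ (α + 0))), ix k n τ 0 ω) with hV
  set X : Ω → Fin d → ℤ := fun ω => rd (fun i => xx k n u v τ 0 ω i / (k : ℝ) ^ m) with hX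
  set Y : Ω → Fin d → ℤ := fun ω => rd (fun i => v ω i / (k : ℝ) ^ m) with hY
  have e1 : CH p X V ≤ d * (Real.log 5 + ((α - m : ℕ) : ℝ) * Real.log k) :=
    vec_scale hk hp h1 V (fun ω => xx k n u v τ 0 ω) m α (by
      intro ω ω' _ _ h
      simp only [hV, Prod.mk.injEq] at h
      exact h.1.1)
  have e2 : CH p Y V ≤ d * (Real.log 5 + ((α - m : ℕ) : ℝ) * Real.log k) :=
    vec_scale hk hp h1 V (fun ω => v ω) m α (by
      intro ω ω' _ _ h
      simp only [hV, Prod.mk.injEq, add_zero] at h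
      exact h.1.2)
  have e3 := CH_subadd hp X Y V
  have e4 : GG k n p u v τ 0 m ≤ H p (fun ω => ((X ω, Y ω), V ω)) := by
    apply H_mono hp
    intro ω ω' _ _ h
    simp only [hV, Prod.mk.injEq] at h
    simp only [Prod.mk.injEq, add_zero]
    exact ⟨⟨h.1.1, h.1.2⟩, h.2.2⟩
  have e5 : H p (fun ω => ((X ω, Y ω), V ω)) = H p V + CH p (fun ω => (X ω, Y ω)) V := by
    unfold CH
    ring
  have e6 : GG k n p u v τ 0 α = H p V := rfl
  linarith

/-- The lower bound for the entropy of the incidences. -/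
theorem entropy_low {k m : ℕ} (hk : 1 ≤ k) (hm : 1 ≤ m) {p : Ω → ℝ} (hp : ∀ ω, 0 ≤ p ω)
    (h1 : ∑ ω, p ω = 1) (Z : Ω → ζ) (u v : Ω → Fin d → ℝ) (τ : Ω → ℤ)
    (hu : Det p Z u) (hv : Det p Z v)
    (hτ : ∀ ω, 0 < p ω → 0 ≤ τ ω ∧ τ ω < (k : ℤ) ^ (2 * m)) (lM : ℝ)
    (hM : H p Z ≤ GG k (2 * m) p u v τ 0 m + lM) :
    H p (fun ω => (Z ω, τ ω)) -
      d / 2 * (2 * m * Real.log k - H p (fun ω => (Z ω, τ ω)) + H p Z) - lM -
      (2 * d * Real.log 5 + d * √(2 * m) * Real.log k + d * m * LL k) ≤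
      GG k (2 * m) p u v τ (2 * m) 0 := by
  have hk1 : (1 : ℝ) ≤ k := by exact_mod_cast hk
  have hlog : 0 ≤ Real.log k := Real.log_nonneg hk1
  have hm1 : (1 : ℝ) ≤ m := by exact_mod_cast hm
  set s : ℝ := √(2 * m) / 2 with hs
  have hs0 : 0 < s := by positivity
  have hs2 : s * s = m / 2 := by
    have := Real.mul_self_sqrt (show (0 : ℝ) ≤ 2 * m by positivity)
    rw [hs]
    nlinarith
  set a₀ : ℝ := H p Z - lM - 2 * d * Real.log 5 - d * s * Real.log k with ha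
  set b : ℝ := d * Real.log k / s with hb
  have hG : ∀ α : ℕ, a₀ - b * ((α : ℝ) - m) ^ 2 ≤ GG k (2 * m) p u v τ 0 α := by
    intro α
    have h2 := GG_zero_low (n := 2 * m) (m := m) hk hp h1 u v τ α
    have h3 : ((α - m : ℕ) : ℝ) ≤ ((α : ℝ) - m) ^ 2 / (2 * s) + s / 2 := by
      have h4 : 0 ≤ ((α : ℝ) - m) ^ 2 / (2 * s) + s / 2 := by positivity
      rcases le_total α m with h | h
      · rw [Nat.sub_eq_zero_of_le h]
        simpa using h4
      · rw [Nat.cast_sub h]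
        have h5 : ((α : ℝ) - m) ^ 2 / (2 * s) + s / 2 - ((α : ℝ) - m) =
            ((α : ℝ) - m - s) ^ 2 / (2 * s) := by
          field_simp
          ring
        have h6 : 0 ≤ ((α : ℝ) - m - s) ^ 2 / (2 * s) := by positivity
        linarith
    have h7 : 2 * (d : ℝ) * (((α - m : ℕ) : ℝ) * Real.log k) ≤
        2 * d * ((((α : ℝ) - m) ^ 2 / (2 * s) + s / 2) * Real.log k) := by
      apply mul_le_mul_of_nonneg_left _ (by positivity)
      exact mul_le_mul_of_nonneg_right h3 hlog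
    have h8 : 2 * (d : ℝ) * ((((α : ℝ) - m) ^ 2 / (2 * s) + s / 2) * Real.log k) =
        b * ((α : ℝ) - m) ^ 2 + d * s * Real.log k := by
      rw [hb]
      field_simp
    rw [ha]
    nlinarith [h2, h7, h8, hM]
  have h9 := GG_chain (n := 2 * m) hk hp h1 Z u v τ hu hv a₀ b m hG (2 * m) le_rfl 0
  have h10 := sum_hh (k := k) (n := 2 * m) hp Z τ hτ
  have h11 : ∑ i ∈ Finset.range (2 * m), (hh k (2 * m) p Z τ i -
      d / 2 * (Real.log k - hh k (2 * m) p Z τ i) -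
        d / 2 * (4 * Real.log 7 + Real.log (3 + 2 * Real.log k))) =
      (1 + d / 2) * (H p (fun ω => (Z ω, τ ω)) - H p Z) -
        d / 2 * (2 * m) * Real.log k - d / 2 * (2 * m) * LL k := by
    have h12 : ∀ i, hh k (2 * m) p Z τ i -
      d / 2 * (Real.log k - hh k (2 * m) p Z τ i) -
        d / 2 * (4 * Real.log 7 + Real.log (3 + 2 * Real.log k)) =
        (1 + d / 2) * hh k (2 * m) p Z τ i - (d / 2 * Real.log k + d / 2 * LL k) := by
      intro i
      unfold LL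
      ring
    simp_rw [h12]
    rw [Finset.sum_sub_distrib, ← Finset.mul_sum, h10, Finset.sum_const, Finset.card_range,
      nsmul_eq_mul]
    push_cast
    ring
  rw [h11] at h9
  have h13 : b * ((((0 : ℕ) : ℝ) + ((2 * m : ℕ) : ℝ) / 2 - m) ^ 2 + ((2 * m : ℕ) : ℝ) / 4) =
      d * s * Real.log k := by
    push_cast
    rw [hb]
    have h14 : ((0 : ℝ) + 2 * m / 2 - m) ^ 2 + 2 * m / 4 = s * s := by
      rw [hs2]; ring
    rw [h14]
    field_simp
  rw [h13] at h9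
  have h15 : d * √(2 * m) * Real.log k = 2 * (d * s * Real.log k) := by
    rw [hs]; ring
  rw [h15]
  rw [ha] at h9
  nlinarith [h9]

end Ent

end Pool.Agent.H76.Spr
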