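import Pool.Agent.H76.Spr.Window
import Pool.Agent.H53.Dense.Tub

/-!
# Level sets of families of tubes
-/

set_option autoImplicit false

open MeasureTheory ENNReal
open scoped RealInnerProductSpace

namespace Pool.Agent.H76.Spr

open Pool.Agent.H53.Kak Pool.Agent.H32.Dense Pool.Agent.H53.Dns

variable {d : ℕ} {ι : Type}

lemma exists_Mx (e : E d) : ∃ k, Mx k e := by
  obtain ⟨k, -, hk⟩ := Finset.exists_max_image Finset.univ (fun l : Fin (d + 1) => |e l|)
    ⟨0, Finset.mem_univ _⟩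
  exact ⟨k, fun l => hk l (Finset.mem_univ _)⟩

open Classical in
/-- **Level sets.** -/
theorem level_general (hd : 1 ≤ d) {ε : ℝ} (hε : 0 < ε) :
    ∃ κ : ℕ, 1 ≤ κ ∧ ∀ K : ℝ, 0 ≤ K → ∃ C : ℝ, 0 < C ∧ ∀ m₀ : ℕ, 1 ≤ m₀ → ∀ δ : ℝ, 0 < δ →
      δ < 1 → δ * 2 ^ (2 * (κ * m₀)) ≤ K → ∀ (ι : Type) (S : Finset ι) (c e : ι → E d),
      (∀ i ∈ S, ‖e i‖ = 1) → ∀ M : ℕ,
      (∀ (k : Fin (d + 1)) (z : ℤ) (a b : Fin d → ℤ), (S.filter fun i =>
        Mx k (e i) ∧ |c i k - z| ≤ 5 / 2 ∧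
        rd (fun l => lu k (2 * (κ * m₀)) z (c i) (e i) l / 2 ^ (κ * m₀)) = a ∧
          rd (fun l => lv k (2 * (κ * m₀)) (e i) l / 2 ^ (κ * m₀)) = b).card ≤ M) →
      ∀ r : ℝ, 0 < r →
      ENNReal.ofReal r * volume {x | r ≤ mu δ c e S x} ≤
        ENNReal.ofReal (C * ((2 : ℝ) ^ (2 * (κ * m₀))) ^ ε * ((M : ℝ) / r) ^ (2 / (d : ℝ)) *
          (δ ^ d * S.card)) := by
  have hd0 : (0 : ℝ) < d := by exact_mod_cast hd
  obtain ⟨κ, hκ, hw⟩ := window (d := d) hd hε
  refine ⟨κ, hκ, ?_⟩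
  intro K hK
  obtain ⟨C, hC, hwin⟩ := hw K hK
  refine ⟨7 * ((d : ℝ) + 1) ^ 2 * C * ((d : ℝ) + 1) ^ (2 / (d : ℝ)), by positivity, ?_⟩
  intro m₀ hm₀ δ hδ hδ1 hδm ι S c e hunit M hM r hr
  set m : ℕ := 2 * (κ * m₀) with hm
  have h2m : (0 : ℝ) < 2 ^ m := by positivity
  set r' : ℝ := r / ((d : ℝ) + 1) with hr'
  have hr'0 : 0 < r' := by positivity
  set Sk : Fin (d + 1) → Finset ι := fun k => S.filter fun i => Mx k (e i) with hSk
  -- one coordinate
  have hk : ∀ k : Fin (d + 1), ENNReal.ofReal r' * volume {x | r' ≤ mu δ c e (Sk k) x} ≤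
      ENNReal.ofReal (7 * C * (2 ^ m) ^ ε * ((M : ℝ) / r') ^ (2 / (d : ℝ)) * (δ ^ d * S.card)) := by
    intro k
    set Sz : ℤ → Finset ι := fun z => (Sk k).filter fun i => |c i k - z| ≤ 5 / 2 with hSz
    set Zs : Finset ℤ := ((Sk k).image fun i => ⌊c i k⌋).biUnion fun y => Finset.Icc (y - 3) (y + 3)
      with hZs
    have hcov : {x | r' ≤ mu δ c e (Sk k) x} ⊆
        ⋃ z ∈ Zs, ({x | r' ≤ mu δ c e (Sz z) x} ∩ slab k 0 z) := by
      intro x hx
      have hx1 : r' ≤ (mu δ c e (Sk k) x : ℝ) := hx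
      have hx2 : 0 < mu δ c e (Sk k) x := by
        have : (0 : ℝ) < mu δ c e (Sk k) x := lt_of_lt_of_le hr'0 hx1
        exact_mod_cast this
      rw [mu, Finset.card_pos] at hx2
      obtain ⟨i, hi⟩ := hx2
      rw [Finset.mem_filter] at hi
      have hiS : i ∈ S := (Finset.mem_filter.mp hi.1).1
      have h1 := abs_le.mp (height_near (k := k) hδ1 (hunit i hiS) hi.2)
      have h2 := Int.floor_le (x k)
      have h3 := Int.lt_floor_add_one (x k)
      have h4 := Int.floor_le (c i k)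
      have h5 := Int.lt_floor_add_one (c i k)
      simp only [Set.mem_iUnion]
      refine ⟨⌊x k⌋, ?_, ?_, ?_⟩
      · rw [hZs, Finset.mem_biUnion]
        refine ⟨⌊c i k⌋, Finset.mem_image_of_mem _ hi.1, ?_⟩
        rw [Finset.mem_Icc]
        have h6 : ((⌊c i k⌋ : ℤ) : ℝ) < ((⌊x k⌋ + 3 : ℤ) : ℝ) := by
          push_cast; linarith [h1.1, h1.2]
        have h7 : ((⌊x k⌋ : ℤ) : ℝ) < ((⌊c i k⌋ + 3 : ℤ) : ℝ) := by
          push_cast; linarith [h1.1, h1.2]
        have h6' : ⌊c i k⌋ < ⌊x k⌋ + 3 := by exact_mod_cast h6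
        have h7' : ⌊x k⌋ < ⌊c i k⌋ + 3 := by exact_mod_cast h7
        omega
      · show r' ≤ (mu δ c e (Sz ⌊x k⌋) x : ℝ)
        refine hx1.trans ?_
        have h8 : mu δ c e (Sk k) x ≤ mu δ c e (Sz ⌊x k⌋) x := by
          rw [mu, mu]
          apply Finset.card_le_card
          intro j hj
          rw [Finset.mem_filter] at hj ⊢
          refine ⟨Finset.mem_filter.mpr ⟨hj.1, ?_⟩, hj.2⟩
          have hjS : j ∈ S := (Finset.mem_filter.mp hj.1).1
          have g1 := abs_le.mp (height_near (k := k) hδ1 (hunit j hjS) hj.2)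
          rw [abs_le]
          constructor <;> linarith [g1.1, g1.2]
        exact_mod_cast h8
      · show ⌊x k * 2 ^ 0⌋ = ⌊x k⌋
        rw [pow_zero, mul_one]
    have hone : ∀ z ∈ Zs, ENNReal.ofReal r' * volume ({x | r' ≤ mu δ c e (Sz z) x} ∩ slab k 0 z) ≤
        ENNReal.ofReal (C * (2 ^ m) ^ ε * ((M : ℝ) / r') ^ (2 / (d : ℝ)) *
          (δ ^ d * (Sz z).card)) := by
      intro z _
      apply hwin m₀ hm₀ δ hδ hδm ι (Sz z) c e k z
      · intro i hi
        exact hunit i (Finset.mem_filter.mp (Finset.mem_filter.mp hi).1).1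
      · intro i hi
        exact (Finset.mem_filter.mp (Finset.mem_filter.mp hi).1).2
      · intro a b
        refine le_trans (Finset.card_le_card ?_) (hM k z a b)
        intro i hi
        rw [Finset.mem_filter] at hi ⊢
        obtain ⟨h1, h2, h3⟩ := hi
        obtain ⟨h4, h5⟩ := Finset.mem_filter.mp h1
        obtain ⟨h6, h7⟩ := Finset.mem_filter.mp h4
        exact ⟨h6, h7, h5, h2, h3⟩
      · exact hr'0
    have hsumz : ∑ z ∈ Zs, ((Sz z).card : ℝ) ≤ 7 * S.card := by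
      have h1 : ∀ i ∈ Sk k, ((Zs.filter fun z : ℤ => |c i k - z| ≤ 5 / 2).card : ℝ) ≤ 7 := by
        intro i _
        have h2 := Pool.Agent.H32.AKT.card_window (Zs.filter fun z : ℤ => |c i k - z| ≤ 5 / 2)
          (c i k) (R := 3) (by norm_num) (by
            intro z hz
            have := (Finset.mem_filter.mp hz).2
            rw [abs_sub_comm]
            linarith)
        linarith
      calc ∑ z ∈ Zs, ((Sz z).card : ℝ) =
          ∑ i ∈ Sk k, ((Zs.filter fun z : ℤ => |c i k - z| ≤ 5 / 2).card : ℝ) := by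
            simp only [hSz, Finset.card_filter]
            push_cast
            rw [Finset.sum_comm]
        _ ≤ ∑ _i ∈ Sk k, (7 : ℝ) := Finset.sum_le_sum h1
        _ = 7 * (Sk k).card := by rw [Finset.sum_const, nsmul_eq_mul]; ring
        _ ≤ 7 * S.card := by
            have : ((Sk k).card : ℝ) ≤ S.card := by
              exact_mod_cast Finset.card_filter_le _ _
            linarith
    calc ENNReal.ofReal r' * volume {x | r' ≤ mu δ c e (Sk k) x}
        ≤ ENNReal.ofReal r' * ∑ z ∈ Zs, volume ({x | r' ≤ mu δ c e (Sz z) x} ∩ slab k 0 z) := by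
          gcongr
          exact (measure_mono hcov).trans (measure_biUnion_finset_le _ _)
      _ = ∑ z ∈ Zs, ENNReal.ofReal r' * volume ({x | r' ≤ mu δ c e (Sz z) x} ∩ slab k 0 z) := by
          rw [Finset.mul_sum]
      _ ≤ ∑ z ∈ Zs, ENNReal.ofReal (C * (2 ^ m) ^ ε * ((M : ℝ) / r') ^ (2 / (d : ℝ)) *
          (δ ^ d * (Sz z).card)) := Finset.sum_le_sum hone
      _ = ENNReal.ofReal (∑ z ∈ Zs, C * (2 ^ m) ^ ε * ((M : ℝ) / r') ^ (2 / (d : ℝ)) *
          (δ ^ d * (Sz z).card)) := by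
          rw [ENNReal.ofReal_sum_of_nonneg]
          intro z _
          positivity
      _ ≤ _ := by
          apply ENNReal.ofReal_le_ofReal
          rw [← Finset.mul_sum, ← Finset.mul_sum]
          calc C * (2 ^ m) ^ ε * ((M : ℝ) / r') ^ (2 / (d : ℝ)) * (δ ^ d * ∑ z ∈ Zs, ((Sz z).card : ℝ))
              ≤ C * (2 ^ m) ^ ε * ((M : ℝ) / r') ^ (2 / (d : ℝ)) * (δ ^ d * (7 * S.card)) := by
                gcongr
            _ = _ := by ring
  -- all coordinates
  have hcov : {x | r ≤ mu δ c e S x} ⊆ ⋃ k ∈ (Finset.univ : Finset (Fin (d + 1))),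
      {x | r' ≤ mu δ c e (Sk k) x} := by
    intro x hx
    have hx1 : r ≤ (mu δ c e S x : ℝ) := hx
    by_contra hcon
    simp only [Set.mem_iUnion, Set.mem_ofPred_eq, not_exists, not_le] at hcon
    have h1 : (mu δ c e S x : ℝ) ≤ ∑ k : Fin (d + 1), (mu δ c e (Sk k) x : ℝ) := by
      have h2 : mu δ c e S x ≤ ∑ k : Fin (d + 1), mu δ c e (Sk k) x := by
        rw [mu]
        have h3 : (S.filter fun j => x ∈ tube δ (c j) (e j)) ⊆
            (Finset.univ : Finset (Fin (d + 1))).biUnion fun k =>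
              (Sk k).filter fun j => x ∈ tube δ (c j) (e j) := by
          intro j hj
          rw [Finset.mem_filter] at hj
          obtain ⟨k, hk⟩ := exists_Mx (e j)
          rw [Finset.mem_biUnion]
          exact ⟨k, Finset.mem_univ _, Finset.mem_filter.mpr
            ⟨Finset.mem_filter.mpr ⟨hj.1, hk⟩, hj.2⟩⟩
        exact (Finset.card_le_card h3).trans Finset.card_biUnion_le
      exact_mod_cast h2
    have h4 : ∑ k : Fin (d + 1), (mu δ c e (Sk k) x : ℝ) < ∑ _k : Fin (d + 1), r' :=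
      Finset.sum_lt_sum_of_nonempty ⟨0, Finset.mem_univ _⟩
        (fun k _ => hcon k (Finset.mem_univ _))
    rw [Finset.sum_const, Finset.card_univ, Fintype.card_fin, nsmul_eq_mul, hr'] at h4
    push_cast at h4
    rw [mul_div_cancel₀ _ (by positivity : ((d : ℝ) + 1) ≠ 0)] at h4
    linarith
  have hrr : ENNReal.ofReal r = ENNReal.ofReal ((d : ℝ) + 1) * ENNReal.ofReal r' := by
    rw [← ENNReal.ofReal_mul (by positivity), hr', mul_div_cancel₀ _ (by positivity)]
  calc ENNReal.ofReal r * volume {x | r ≤ mu δ c e S x}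
      ≤ ENNReal.ofReal r * ∑ k : Fin (d + 1), volume {x | r' ≤ mu δ c e (Sk k) x} := by
        gcongr
        exact (measure_mono hcov).trans (measure_biUnion_finset_le _ _)
    _ = ENNReal.ofReal ((d : ℝ) + 1) *
        ∑ k : Fin (d + 1), ENNReal.ofReal r' * volume {x | r' ≤ mu δ c e (Sk k) x} := by
        rw [hrr, ← Finset.mul_sum, mul_assoc]
    _ ≤ ENNReal.ofReal ((d : ℝ) + 1) * ∑ _k : Fin (d + 1),
        ENNReal.ofReal (7 * C * (2 ^ m) ^ ε * ((M : ℝ) / r') ^ (2 / (d : ℝ)) *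
          (δ ^ d * S.card)) := by
        gcongr with k _
        exact hk k
    _ = ENNReal.ofReal (((d : ℝ) + 1) * (((d : ℝ) + 1) *
        (7 * C * (2 ^ m) ^ ε * ((M : ℝ) / r') ^ (2 / (d : ℝ)) * (δ ^ d * S.card)))) := by
        have hcast : ((d + 1 : ℕ) : ℝ≥0∞) = ENNReal.ofReal ((d : ℝ) + 1) := by
          rw [← ENNReal.ofReal_natCast]
          congr 1
          push_cast
          ring
        rw [Finset.sum_const, Finset.card_univ, Fintype.card_fin, nsmul_eq_mul, hcast,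
          ← ENNReal.ofReal_mul (by positivity), ← ENNReal.ofReal_mul (by positivity)]
    _ = _ := by
        congr 1
        have h5 : (M : ℝ) / r' = ((d : ℝ) + 1) * ((M : ℝ) / r) := by
          rw [hr']; field_simp
        rw [h5, Real.mul_rpow (by positivity) (by positivity)]
        ring

/-- A fat tube of length 6. -/
def fatT (ρ : ℝ) (c e : E d) : Set (E d) :=
  {x | |⟪x - c, e⟫| ≤ 3 ∧ ‖(x - c) - ⟪x - c, e⟫ • e‖ ≤ ρ}

open Classical in
/-- few tubes in a cell of the space of lines -/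
lemma cells_le {δ ρ : ℝ} (hδ : 0 ≤ δ) (hδ1 : δ < 1) (S : Finset ι) (c e : ι → E d)
    (hunit : ∀ i ∈ S, ‖e i‖ = 1) (n : ℕ)
    (hρ : ((d : ℝ) + 1) * (5 * (1 / 2 ^ n) + 2 * δ) ≤ ρ) (hρ1 : ρ ≤ 1) {A : ℝ}
    (hA0 : 0 ≤ A) (hA : ∀ i ∈ S, ((S.filter fun j => tube δ (c j) (e j) ⊆ fatT ρ (c i) (e i)).card : ℝ) ≤ A)
    (k : Fin (d + 1)) (z : ℤ) (a b : Fin d → ℤ) :
    ((S.filter fun i => Mx k (e i) ∧ |c i k - z| ≤ 5 / 2 ∧
        rd (fun l => lu k (2 * n) z (c i) (e i) l / 2 ^ n) = a ∧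
          rd (fun l => lv k (2 * n) (e i) l / 2 ^ n) = b).card : ℝ) ≤
      (5 * ((d : ℝ) + 1) + 2) * A := by
  set F := S.filter fun i => Mx k (e i) ∧ |c i k - z| ≤ 5 / 2 ∧
        rd (fun l => lu k (2 * n) z (c i) (e i) l / 2 ^ n) = a ∧
          rd (fun l => lv k (2 * n) (e i) l / 2 ^ n) = b with hF
  have h2n : (0 : ℝ) < 2 ^ n := by positivity
  have hd1 : (0 : ℝ) < (d : ℝ) + 1 := by positivity
  set g : ι → ℤ := fun i => ⌊((d : ℝ) + 1) * c i k⌋ with hg
  have hfib : ∀ y ∈ F.image g, ((F.filter fun i => g i = y).card : ℝ) ≤ A := by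
    intro y hy
    obtain ⟨i₀, hi₀, rfl⟩ := Finset.mem_image.mp hy
    obtain ⟨hS₀, hm₀, hc₀, ha₀, hb₀⟩ := Finset.mem_filter.mp hi₀
    refine le_trans ?_ (hA i₀ hS₀)
    have hsub : (F.filter fun i => g i = g i₀) ⊆
        (S.filter fun j => tube δ (c j) (e j) ⊆ fatT ρ (c i₀) (e i₀)) := by
      intro j hj
      obtain ⟨hj1, hj2⟩ := Finset.mem_filter.mp hj
      obtain ⟨hS, hmj, hcj, haj, hbj⟩ := Finset.mem_filter.mp hj1
      refine Finset.mem_filter.mpr ⟨hS, ?_⟩
      have hpow : (2 : ℝ) ^ (2 * n) = 2 ^ n * 2 ^ n := by rw [two_mul, pow_add]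
      refine fat (z := z) (s := 1 / 2 ^ n) hδ hδ1 (by positivity) hm₀ (hunit _ hS₀) hmj
        (hunit _ hS) hcj ?_ ?_ ?_ hρ hρ1
      · intro l
        have h1 := floor_eq_abs (congrFun (ha₀.trans haj.symm) l)
        simp only [lu, hpow] at h1
        have h2 : 2 ^ n * 2 ^ n * psl k (c i₀) (e i₀) z l / 2 ^ n -
            2 ^ n * 2 ^ n * psl k (c j) (e j) z l / 2 ^ n =
            2 ^ n * (psl k (c i₀) (e i₀) z l - psl k (c j) (e j) z l) := by
          field_simp
        rw [h2, abs_mul, abs_of_pos h2n] at h1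
        rw [le_div_iff₀ h2n]
        linarith
      · intro l
        have h1 := floor_eq_abs (congrFun (hb₀.trans hbj.symm) l)
        simp only [lv, hpow] at h1
        have h2 : 2 ^ n * 2 ^ n * slp k (e i₀) l / 2 ^ n -
            2 ^ n * 2 ^ n * slp k (e j) l / 2 ^ n =
            2 ^ n * (slp k (e i₀) l - slp k (e j) l) := by
          field_simp
        rw [h2, abs_mul, abs_of_pos h2n] at h1
        rw [le_div_iff₀ h2n]
        linarith
      · have h1 := floor_eq_abs (a := ((d : ℝ) + 1) * c j k) (b := ((d : ℝ) + 1) * c i₀ k) hj2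
        rw [← mul_sub, abs_mul, abs_of_pos hd1] at h1
        rw [le_div_iff₀ hd1]
        linarith
    exact_mod_cast Finset.card_le_card hsub
  have hcl : ((F.image g).card : ℝ) ≤ 5 * ((d : ℝ) + 1) + 2 := by
    have h1 := card_Icc_floor (((d : ℝ) + 1) * (z - 5 / 2)) (((d : ℝ) + 1) * (z + 5 / 2))
      (by nlinarith)
    have h2 : F.image g ⊆ Finset.Icc ⌊((d : ℝ) + 1) * (z - 5 / 2)⌋ ⌊((d : ℝ) + 1) * (z + 5 / 2)⌋ := by
      intro y hy
      obtain ⟨i, hi, rfl⟩ := Finset.mem_image.mp hy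
      obtain ⟨-, -, hc, -, -⟩ := Finset.mem_filter.mp hi
      rw [abs_le] at hc
      rw [Finset.mem_Icc]
      constructor
      · apply Int.floor_le_floor
        apply mul_le_mul_of_nonneg_left _ hd1.le
        linarith [hc.1]
      · apply Int.floor_le_floor
        apply mul_le_mul_of_nonneg_left _ hd1.le
        linarith [hc.2]
    calc ((F.image g).card : ℝ) ≤ ((Finset.Icc ⌊((d : ℝ) + 1) * (z - 5 / 2)⌋
          ⌊((d : ℝ) + 1) * (z + 5 / 2)⌋).card : ℝ) := by exact_mod_cast Finset.card_le_card h2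
      _ ≤ ((d : ℝ) + 1) * (z + 5 / 2) - ((d : ℝ) + 1) * (z - 5 / 2) + 2 := h1
      _ = _ := by ring
  have hsum : (F.card : ℝ) = ∑ y ∈ F.image g, ((F.filter fun i => g i = y).card : ℝ) := by
    have := Finset.card_eq_sum_card_fiberwise (s := F) (t := F.image g) (f := g)
      (fun x hx => Finset.mem_coe.mpr (Finset.mem_image_of_mem _ hx))
    exact_mod_cast this
  rw [hsum]
  calc ∑ y ∈ F.image g, ((F.filter fun i => g i = y).card : ℝ) ≤ ∑ _y ∈ F.image g, A :=
        Finset.sum_le_sum hfib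
    _ = ((F.image g).card : ℝ) * A := by rw [Finset.sum_const, nsmul_eq_mul]
    _ ≤ _ := by gcongr

end Pool.Agent.H76.Spr
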