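import Pool.Agent.H76.Spr.Energy

/-!
# The two-slope entropy inequality at one scale
-/

set_option autoImplicit false

namespace Pool.Agent.H76.Spr

open Finset Real
open Pool.Agent.H49.Ent Pool.Agent.H32.Dense

lemma floor_diff (a b : ℝ) : |((⌊a⌋ - ⌊b⌋ : ℤ) : ℝ)| ≤ |a - b| + 1 := by
  have h1 := Int.floor_le a
  have h2 := Int.lt_floor_add_one a
  have h3 := Int.floor_le b
  have h4 := Int.lt_floor_add_one b
  push_cast
  have h5 := abs_le.mp (le_refl |a - b|)
  rw [abs_le]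
  constructor <;> linarith

lemma floor_eq_abs {a b : ℝ} (h : ⌊a⌋ = ⌊b⌋) : |a - b| ≤ 1 :=
  (Int.abs_sub_lt_one_of_floor_eq_floor h).le

lemma rd_apply {d : ℕ} (x : Fin d → ℝ) (i : Fin d) : rd x i = ⌊x i⌋ := rfl

lemma rd_eq_abs {d : ℕ} {x y : Fin d → ℝ} (h : rd x = rd y) (i : Fin d) : |x i - y i| ≤ 1 :=
  floor_eq_abs (congrFun h i)

variable {d : ℕ} {Ω β : Type} [Fintype Ω]

/-- The position at the next time. -/
noncomputable def nx (k : ℕ) (I0 I1 : Ω → ℤ) (x y : Ω → Fin d → ℝ) (ω : Ω) : Fin d → ℝ :=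
  fun i => x ω i + ((I1 ω : ℝ) - k * I0 ω) / k * y ω i

lemma coarse_time {k : ℕ} {a b c : ℤ} (h1 : (k : ℤ) * a ≤ c ∧ c < k * a + k)
    (h2 : (k : ℤ) * b ≤ c ∧ c < k * b + k) : a = b := by
  have hk : (0 : ℤ) < k := by
    have := h1.1.trans_lt h1.2
    linarith
  have h3 : (k : ℤ) * a < k * (b + 1) := by linarith [h1.1, h2.2]
  have h4 : (k : ℤ) * b < k * (a + 1) := by linarith [h2.1, h1.2]
  have h5 := lt_of_mul_lt_mul_left h3 hk.le
  have h6 := lt_of_mul_lt_mul_left h4 hk.le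
  omega

/-- The step. -/
theorem step_abs {k : ℕ} (hk : 1 ≤ k) {p : Ω → ℝ} (hp : ∀ ω, 0 ≤ p ω) (h1 : ∑ ω, p ω = 1)
    (b : Ω → β) (I0 I1 : Ω → ℤ) (x y : Ω → Fin d → ℝ)
    (hI0 : Det p b I0) (hx : Det p b x) (hy : Det p b y)
    (hI : ∀ ω, 0 < p ω → (k : ℤ) * I0 ω ≤ I1 ω ∧ I1 ω < k * I0 ω + k) :
    H p (fun ω => ((rd (fun i => x ω i / k), rd (fun i => y ω i / k)), I0 ω)) +
      H p (fun ω => ((rd (x ω), rd (y ω)), I0 ω)) + 2 * CH p I1 b ≤
    2 * H p (fun ω => ((rd (nx k I0 I1 x y ω), rd (fun i => y ω i / k)), I1 ω)) +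
      d * (Real.log k - CH p I1 b) + d * (4 * Real.log 7 + Real.log (3 + 2 * Real.log k)) := by
  have hk0 : (0 : ℝ) < k := by exact_mod_cast hk
  have hk1 : (1 : ℝ) ≤ k := by exact_mod_cast hk
  set F : Ω → ((Fin d → ℤ) × (Fin d → ℤ)) × ℤ :=
    fun ω => ((rd (nx k I0 I1 x y ω), rd (fun i => y ω i / k)), I1 ω) with hF
  set Cf : Ω → ((Fin d → ℤ) × (Fin d → ℤ)) × ℤ :=
    fun ω => ((rd (fun i => x ω i / k), rd (fun i => y ω i / k)), I0 ω) with hCf
  set q : Ω × Ω → ℝ := dbl p b with hq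
  have hq0 : ∀ w, 0 ≤ q w := dbl_nonneg (b := b) hp
  have hq1 : ∑ w, q w = 1 := by rw [hq, (dbl_fst hp).sum, h1]
  have hpos1 : ∀ w, 0 < q w → 0 < p w.1 ∧ 0 < p w.2 ∧ b w.1 = b w.2 := fun w hw' =>
    (glue_pos_iff hp hp w).mp hw'
  -- time offsets lie in [0, 1]
  have hoff : ∀ ω, 0 < p ω → 0 ≤ ((I1 ω : ℝ) - k * I0 ω) / k ∧
      ((I1 ω : ℝ) - k * I0 ω) / k ≤ 1 := by
    intro ω hω
    obtain ⟨a1, a2⟩ := hI ω hω
    have a1' : (k : ℝ) * I0 ω ≤ I1 ω := by exact_mod_cast a1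
    have a2' : (I1 ω : ℝ) < k * I0 ω + k := by exact_mod_cast a2
    constructor
    · apply div_nonneg _ hk0.le
      linarith
    · rw [div_le_one hk0]
      linarith
  have hI0' : ∀ ω ω', 0 < p ω → 0 < p ω' → I1 ω = I1 ω' → I0 ω = I0 ω' := by
    intro ω ω' hω hω' h
    apply coarse_time (hI ω hω)
    rw [h]
    exact hI ω' hω'
  -- (1) C given A
  have hCA : CH p Cf F ≤ d * Real.log 7 := by
    have e1 : CH p Cf F ≤ CH p (fun ω => rd (fun i => x ω i / k)) F := by
      apply CH_mono_left hp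
      intro ω ω' a a' h
      simp only [hF, Prod.mk.injEq] at h
      obtain ⟨h2, ⟨⟨h3, h4⟩, h5⟩⟩ := h
      simp only [hCf, Prod.mk.injEq]
      exact ⟨⟨h2, h4⟩, hI0' ω ω' a a' h5⟩
    refine e1.trans ?_
    have e2 := CH_le_vec hp h1 (fun ω => rd (fun i => x ω i / k)) F (fun _ => 3) (by
      intro ω ω' a a' h i
      simp only [hF, Prod.mk.injEq] at h
      obtain ⟨⟨h3, h4⟩, h5⟩ := h
      have h6 := rd_eq_abs h3 i
      have h7 := rd_eq_abs h4 i
      have h8 := hI0' ω ω' a a' h5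
      have h9 := hoff ω a
      have h10 : |y ω i - y ω' i| ≤ k := by
        have : y ω i / k - y ω' i / k = (y ω i - y ω' i) / k := by ring
        rw [this, abs_div, abs_of_pos hk0, div_le_one hk0] at h7
        exact h7
      simp only [nx] at h6
      rw [← h5, ← h8] at h6
      set o : ℝ := ((I1 ω : ℝ) - k * I0 ω) / k with ho
      have h11 : x ω i - x ω' i = (x ω i + o * y ω i - (x ω' i + o * y ω' i)) -
          o * (y ω i - y ω' i) := by ring
      have h12 : |x ω i - x ω' i| ≤ 1 + k := by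
        rw [h11]
        refine (abs_sub _ _).trans ?_
        have h13 : |o * (y ω i - y ω' i)| ≤ 1 * k := by
          rw [abs_mul, abs_of_nonneg h9.1]
          exact mul_le_mul h9.2 h10 (abs_nonneg _) zero_le_one
        linarith
      simp only [rd_apply]
      refine (floor_diff _ _).trans ?_
      have h14 : x ω i / k - x ω' i / k = (x ω i - x ω' i) / k := by ring
      rw [h14, abs_div, abs_of_pos hk0]
      have h15 : |x ω i - x ω' i| / k ≤ 2 := by
        rw [div_le_iff₀ hk0]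
        linarith
      linarith)
    rw [Ex_const h1] at e2
    norm_num at e2
    exact e2
  -- the triple on the doubled space
  have hA : H q (fun w => F w.1) = H p F := (dbl_fst hp).H F
  have hB : H q (fun w => F w.2) = H p F := (dbl_snd hp).H F
  have hC1 : H q (fun w => Cf w.1) = H p Cf := (dbl_fst hp).H Cf
  have hCA1 : CH q (fun w => Cf w.1) (fun w => F w.1) = CH p Cf F := (dbl_fst hp).CH Cf F
  have hCdet : ∀ w, 0 < q w → Cf w.1 = Cf w.2 := by
    intro w hw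
    obtain ⟨a1, a2, a3⟩ := hpos1 w hw
    simp only [hCf]
    rw [hx _ _ a1 a2 a3, hy _ _ a1 a2 a3, hI0 _ _ a1 a2 a3]
  have hCA2 : CH q (fun w => Cf w.1) (fun w => F w.2) = CH p Cf F := by
    rw [← (dbl_snd (b := b) hp).CH Cf F]
    apply CH_congr hq0
    · intro w w' a a' h
      simp only [Prod.mk.injEq] at h
      show Cf w.2 = Cf w'.2
      rw [← hCdet w a, ← hCdet w' a']
      exact h.1
    · intro w w' a a' h
      simp only [Prod.mk.injEq] at h
      show Cf w.1 = Cf w'.1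
      rw [hCdet w a, hCdet w' a']
      exact h.1
    · intro w w' a a' h
      exact h
    · intro w w' a a' h
      exact h
  -- submodularity
  have hsub : H q (fun w => (F w.1, F w.2)) + H q (fun w => Cf w.1) ≤
      H q (fun w => F w.1) + CH q (fun w => Cf w.1) (fun w => F w.1) +
        (H q (fun w => F w.2) + CH q (fun w => Cf w.1) (fun w => F w.2)) := by
    have h2 := submod hq0 (X := fun w => (Cf w.1, F w.1)) (Y := fun w => (Cf w.1, F w.2))
      (Z := fun w => Cf w.1) (W := fun w => (F w.1, F w.2))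
      (fun w w' _ _ h => (Prod.ext_iff.mp h).1) (fun w w' _ _ h => (Prod.ext_iff.mp h).1)
      (fun w w' _ _ h => by
        simp only [Prod.mk.injEq] at h ⊢
        exact ⟨h.1.2, h.2.2⟩)
    unfold CH
    linarith
  -- (2) D given A, B
  set Dx : Ω × Ω → Fin d → ℤ := fun w => rd (x w.1) with hDx
  set Dy : Ω × Ω → Fin d → ℤ := fun w => rd (y w.1) with hDy
  set AB : Ω × Ω → ((((Fin d → ℤ) × (Fin d → ℤ)) × ℤ) × (((Fin d → ℤ) × (Fin d → ℤ)) × ℤ)) :=
    fun w => (F w.1, F w.2) with hAB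
  have hDyAB : CH q Dy AB ≤ d * (Real.log 7 + (Real.log k - CH p I1 b +
      Real.log (3 + 2 * Real.log k))) := by
    have e2 := CH_le_vec hq0 hq1 Dy AB
      (fun w => 2 * k / max |(I1 w.1 : ℝ) - I1 w.2| 1 + 1) (by
      intro w w' a a' h i
      simp only [hAB, hF, Prod.mk.injEq] at h
      obtain ⟨⟨⟨h3, h4⟩, h5⟩, ⟨⟨h6, h7⟩, h8⟩⟩ := h
      obtain ⟨a1, a2, a3⟩ := hpos1 w a
      obtain ⟨b1, b2, b3⟩ := hpos1 w' a'
      have g1 := rd_eq_abs h3 i
      have g2 := rd_eq_abs h6 i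
      have g3 := rd_eq_abs h4 i
      have g4 := hI0' _ _ a1 b1 h5
      have g5 := hI0' _ _ a2 b2 h8
      simp only [nx] at g1 g2
      rw [← h5, ← g4] at g1
      rw [← h8, ← g5, ← hx _ _ a1 a2 a3, ← hx _ _ b1 b2 b3, ← hy _ _ a1 a2 a3,
        ← hy _ _ b1 b2 b3, ← hI0 _ _ a1 a2 a3] at g2
      simp only [hDy, rd_apply]
      refine (floor_diff _ _).trans ?_
      apply add_le_add _ le_rfl
      by_cases hI12 : I1 w.1 = I1 w.2
      · rw [hI12]
        simp only [sub_self, abs_zero]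
        rw [max_eq_right zero_le_one, div_one]
        have h10 : |y w.1 i - y w'.1 i| ≤ k := by
          have : y w.1 i / k - y w'.1 i / k = (y w.1 i - y w'.1 i) / k := by ring
          rw [this, abs_div, abs_of_pos hk0, div_le_one hk0] at g3
          exact g3
        linarith
      · have hne : (1 : ℝ) ≤ |(I1 w.1 : ℝ) - I1 w.2| := by
          have : (1 : ℤ) ≤ |I1 w.1 - I1 w.2| := Int.one_le_abs (sub_ne_zero.mpr hI12)
          exact_mod_cast this
        rw [max_eq_left hne]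
        have hpos : 0 < |(I1 w.1 : ℝ) - I1 w.2| := lt_of_lt_of_le one_pos hne
        rw [le_div_iff₀ hpos]
        have e3 : (y w.1 i - y w'.1 i) * ((I1 w.1 : ℝ) - I1 w.2) =
            k * ((x w.1 i + ((I1 w.1 : ℝ) - k * I0 w.1) / k * y w.1 i -
              (x w'.1 i + ((I1 w.1 : ℝ) - k * I0 w.1) / k * y w'.1 i)) -
            (x w.1 i + ((I1 w.2 : ℝ) - k * I0 w.1) / k * y w.1 i -
              (x w'.1 i + ((I1 w.2 : ℝ) - k * I0 w.1) / k * y w'.1 i))) := by
          field_simp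
          ring
        rw [← abs_mul, e3, abs_mul, abs_of_pos hk0]
        have e4 := (abs_sub (x w.1 i + ((I1 w.1 : ℝ) - k * I0 w.1) / k * y w.1 i -
              (x w'.1 i + ((I1 w.1 : ℝ) - k * I0 w.1) / k * y w'.1 i))
            (x w.1 i + ((I1 w.2 : ℝ) - k * I0 w.1) / k * y w.1 i -
              (x w'.1 i + ((I1 w.2 : ℝ) - k * I0 w.1) / k * y w'.1 i))).trans
                (add_le_add g1 g2)
        nlinarith [e4, hk0])
    refine e2.trans ?_
    apply mul_le_mul_of_nonneg_left _ (Nat.cast_nonneg d)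
    have hwin : ∀ ω ω', 0 < p ω → 0 < p ω' → b ω = b ω' → |I1 ω - I1 ω'| < (k : ℤ) := by
      intro ω ω' a a' h
      have h2 := hI ω a
      have h3 := hI ω' a'
      rw [hI0 _ _ a a' h] at h2
      rw [abs_lt]
      constructor <;> linarith [h2.1, h2.2, h3.1, h3.2]
    have e5 : Ex q (fun w => Real.log (2 * (2 * k / max |(I1 w.1 : ℝ) - I1 w.2| 1 + 1) + 1)) ≤
        Ex q (fun w => Real.log 7 + ell k (I1 w.1) (I1 w.2)) := by
      apply Ex_mono hq0
      intro w hw
      obtain ⟨a1, a2, a3⟩ := hpos1 w hw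
      have h2 := hwin _ _ a1 a2 a3
      have h2' : |(I1 w.1 : ℝ) - I1 w.2| < k := by exact_mod_cast h2
      have hm : (0 : ℝ) < max |(I1 w.1 : ℝ) - I1 w.2| 1 := lt_of_lt_of_le one_pos (le_max_right _ _)
      have hm2 : max |(I1 w.1 : ℝ) - I1 w.2| 1 ≤ k := max_le h2'.le hk1
      have hm3 : 1 ≤ k / max |(I1 w.1 : ℝ) - I1 w.2| 1 := by
        rw [le_div_iff₀ hm]; linarith
      rw [ell, ← Real.log_mul (by norm_num) (by positivity)]
      apply Real.log_le_log (by positivity)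
      have : 2 * (k : ℝ) / max |(I1 w.1 : ℝ) - I1 w.2| 1 =
          2 * (k / max |(I1 w.1 : ℝ) - I1 w.2| 1) := by ring
      rw [this]
      linarith
    refine e5.trans ?_
    rw [Ex_add q (fun _ => Real.log 7), Ex_const hq1]
    have e6 := energy_le hk hp h1 b I1 hwin
    linarith
  have hDxAB : CH q Dx (fun w => (Dy w, AB w)) ≤ d * Real.log 7 := by
    have e2 := CH_le_vec hq0 hq1 Dx (fun w => (Dy w, AB w)) (fun _ => 3) (by
      intro w w' a a' h i
      simp only [hAB, hDy, hF, Prod.mk.injEq] at h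
      obtain ⟨h2, ⟨⟨⟨h3, h4⟩, h5⟩, _⟩⟩ := h
      obtain ⟨a1, a2, a3⟩ := hpos1 w a
      obtain ⟨b1, b2, b3⟩ := hpos1 w' a'
      have g1 := rd_eq_abs h3 i
      have g3 := rd_eq_abs h2 i
      have g4 := hI0' _ _ a1 b1 h5
      have h9 := hoff w.1 a1
      simp only [nx] at g1
      rw [← h5, ← g4] at g1
      set o : ℝ := ((I1 w.1 : ℝ) - k * I0 w.1) / k with ho
      have h11 : x w.1 i - x w'.1 i = (x w.1 i + o * y w.1 i - (x w'.1 i + o * y w'.1 i)) -
          o * (y w.1 i - y w'.1 i) := by ring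
      have h12 : |x w.1 i - x w'.1 i| ≤ 2 := by
        rw [h11]
        refine (abs_sub _ _).trans ?_
        have h13 : |o * (y w.1 i - y w'.1 i)| ≤ 1 * 1 := by
          rw [abs_mul, abs_of_nonneg h9.1]
          exact mul_le_mul h9.2 g3 (abs_nonneg _) zero_le_one
        linarith
      simp only [hDx, rd_apply]
      refine (floor_diff _ _).trans ?_
      linarith)
    rw [Ex_const hq1] at e2
    norm_num at e2
    exact e2
  -- (3) the entropy of D
  have hD : H p (fun ω => ((rd (x ω), rd (y ω)), I0 ω)) + 2 * CH p I1 b ≤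
      H q (fun w => (Dx w, (Dy w, AB w))) := by
    set E : Ω → ((Fin d → ℤ) × (Fin d → ℤ)) × ℤ := fun ω => ((rd (x ω), rd (y ω)), I0 ω) with hE
    have hEdet : Det p b E := by
      intro ω ω' a a' h
      simp only [hE]
      rw [hx _ _ a a' h, hy _ _ a a' h, hI0 _ _ a a' h]
    have f1 : H q (fun w => (I1 w.2, (I1 w.1, E w.1))) ≤ H q (fun w => (Dx w, (Dy w, AB w))) := by
      apply H_mono hq0
      intro w w' a a' h
      simp only [hAB, hDx, hDy, hF, Prod.mk.injEq] at h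
      obtain ⟨h2, h3, ⟨⟨⟨h4, h5⟩, h6⟩, ⟨⟨h7, h8⟩, h9⟩⟩⟩ := h
      obtain ⟨a1, a2, a3⟩ := hpos1 w a
      obtain ⟨b1, b2, b3⟩ := hpos1 w' a'
      simp only [hE, Prod.mk.injEq]
      exact ⟨h9, h6, ⟨⟨h2, h3⟩, hI0' _ _ a1 b1 h6⟩⟩
    have f2 : CH q (fun w => I1 w.2) (fun w => (b w.2, I1 w.1)) = CH p I1 b :=
      CH_dbl_2 hp I1 I1
    have f3 : CH q (fun w => I1 w.2) (fun w => (b w.2, I1 w.1)) ≤
        CH q (fun w => I1 w.2) (fun w => (I1 w.1, E w.1)) := by
      apply CH_mono_cond hq0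
      intro w w' a a' h
      obtain ⟨a1, a2, a3⟩ := hpos1 w a
      obtain ⟨b1, b2, b3⟩ := hpos1 w' a'
      simp only [Prod.mk.injEq] at h ⊢
      refine ⟨h.2, ?_⟩
      apply hEdet _ _ a1 b1
      rw [a3, b3, h.1]
    have f4 : CH q (fun w => I1 w.1) (fun w => E w.1) = CH p I1 E := (dbl_fst hp).CH I1 E
    have f5 : CH p I1 b ≤ CH p I1 E := CH_mono_cond hp hEdet
    have f6 : H q (fun w => E w.1) = H p E := (dbl_fst hp).H E
    have f7 : H q (fun w => (I1 w.2, (I1 w.1, E w.1))) = H q (fun w => E w.1) +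
        CH q (fun w => I1 w.1) (fun w => E w.1) +
        CH q (fun w => I1 w.2) (fun w => (I1 w.1, E w.1)) := by
      unfold CH
      ring
    linarith
  have hfin : H q (fun w => (Dx w, (Dy w, AB w))) = H q AB + CH q Dy AB +
      CH q Dx (fun w => (Dy w, AB w)) := by
    unfold CH
    ring
  rw [hA, hB, hCA1, hCA2, hC1] at hsub
  rw [hfin] at hD
  have hABdef : H q (fun w => (F w.1, F w.2)) = H q AB := rfl
  rw [hABdef] at hsub
  nlinarith [hsub, hD, hCA, hDyAB, hDxAB]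

end Pool.Agent.H76.Spr
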