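import Pool.Agent.H76.Spr.Count
import Pool.Agent.H76.Spr.Geo

/-!
# Level sets in one window of heights
-/

set_option autoImplicit false

open MeasureTheory ENNReal
open scoped RealInnerProductSpace

namespace Pool.Agent.H76.Spr

open Pool.Agent.H53.Kak Pool.Agent.H32.Dense Pool.Agent.H53.Dns

variable {d : ℕ} {ι : Type}

lemma card_boxD (y : Fin d → ℤ) (Z : Finset (Fin d → ℤ)) (D : ℕ)
    (h : ∀ z ∈ Z, ∀ l, |z l - y l| ≤ (D : ℤ)) : Z.card ≤ (2 * D + 1) ^ d := by
  have hsub : Z ⊆ Fintype.piFinset fun l => Finset.Icc (y l - D) (y l + D) := by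
    intro z hz
    rw [Fintype.mem_piFinset]
    intro l
    have h1 := abs_le.mp (h z hz l)
    rw [Finset.mem_Icc]
    constructor <;> linarith [h1.1, h1.2]
  refine (Finset.card_le_card hsub).trans ?_
  rw [Fintype.card_piFinset]
  simp only [Int.card_Icc]
  have : ∀ l : Fin d, (y l + D + 1 - (y l - D)).toNat = 2 * D + 1 := by
    intro l
    have : y l + D + 1 - (y l - D) = ((2 * D + 1 : ℕ) : ℤ) := by push_cast; ring
    rw [this, Int.toNat_natCast]
  rw [Finset.prod_congr rfl fun l _ => this l]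
  simp

/-- solving the incidence inequality -/
lemma solve_I {d : ℕ} (hd : 1 ≤ d) {I C R ε M P B r N : ℝ} (hI : 0 < I) (hC : 0 < C) (hR : 0 < R)
    (hM : 0 ≤ M) (hB : 0 < B) (hr : 0 < r) (hN : 0 ≤ N) (hP : r * P ≤ B * I)
    (h : I ^ (1 + (d : ℝ) / 2) ≤ C * R ^ (d * ε / 2) * M * P * (R * N) ^ ((d : ℝ) / 2)) :
    I ≤ (C * B) ^ (2 / (d : ℝ)) * R ^ ε * (M / r) ^ (2 / (d : ℝ)) * (R * N) := by
  have hd0 : (0 : ℝ) < d := by exact_mod_cast hd
  have h1 : I ^ (1 + (d : ℝ) / 2) = I * I ^ ((d : ℝ) / 2) := by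
    rw [Real.rpow_add hI, Real.rpow_one]
  have hP' : P ≤ B * I / r := by
    rw [le_div_iff₀ hr]; linarith
  have h2 : I * I ^ ((d : ℝ) / 2) ≤
      I * (C * B * R ^ (d * ε / 2) * (M / r) * (R * N) ^ ((d : ℝ) / 2)) := by
    rw [← h1]
    refine h.trans ?_
    calc C * R ^ (d * ε / 2) * M * P * (R * N) ^ ((d : ℝ) / 2)
        ≤ C * R ^ (d * ε / 2) * M * (B * I / r) * (R * N) ^ ((d : ℝ) / 2) := by gcongr
      _ = _ := by field_simp
  have h3 := le_of_mul_le_mul_left h2 hI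
  have h4 : I = (I ^ ((d : ℝ) / 2)) ^ (2 / (d : ℝ)) := by
    rw [← Real.rpow_mul hI.le]
    have : (d : ℝ) / 2 * (2 / d) = 1 := by field_simp
    rw [this, Real.rpow_one]
  calc I = (I ^ ((d : ℝ) / 2)) ^ (2 / (d : ℝ)) := h4
    _ ≤ (C * B * R ^ (d * ε / 2) * (M / r) * (R * N) ^ ((d : ℝ) / 2)) ^ (2 / (d : ℝ)) :=
        Real.rpow_le_rpow (by positivity) h3 (by positivity)
    _ = _ := by
        rw [Real.mul_rpow (by positivity) (by positivity),
          Real.mul_rpow (by positivity) (by positivity),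
          Real.mul_rpow (by positivity) (by positivity), ← Real.rpow_mul hR.le,
          ← Real.rpow_mul (by positivity : (0 : ℝ) ≤ R * N)]
        have e1 : (d : ℝ) * ε / 2 * (2 / d) = ε := by field_simp
        have e2 : (d : ℝ) / 2 * (2 / d) = 1 := by field_simp
        rw [e1, e2, Real.rpow_one]

open Classical in
/-- **Level sets in a window.** -/
theorem window (hd : 1 ≤ d) {ε : ℝ} (hε : 0 < ε) :
    ∃ κ : ℕ, 1 ≤ κ ∧ ∀ K : ℝ, 0 ≤ K → ∃ C : ℝ, 0 < C ∧ ∀ m₀ : ℕ, 1 ≤ m₀ → ∀ δ : ℝ, 0 < δ →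
      δ * 2 ^ (2 * (κ * m₀)) ≤ K → ∀ (ι : Type) (S : Finset ι) (c e : ι → E d)
      (k : Fin (d + 1)) (z : ℤ), (∀ i ∈ S, ‖e i‖ = 1) → (∀ i ∈ S, Mx k (e i)) → ∀ M : ℕ,
      (∀ a b : Fin d → ℤ, (S.filter fun i =>
        rd (fun l => lu k (2 * (κ * m₀)) z (c i) (e i) l / 2 ^ (κ * m₀)) = a ∧
          rd (fun l => lv k (2 * (κ * m₀)) (e i) l / 2 ^ (κ * m₀)) = b).card ≤ M) →
      ∀ r : ℝ, 0 < r →
      ENNReal.ofReal r * volume ({x | r ≤ mu δ c e S x} ∩ slab k 0 z) ≤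
        ENNReal.ofReal (C * ((2 : ℝ) ^ (2 * (κ * m₀))) ^ ε * ((M : ℝ) / r) ^ (2 / (d : ℝ)) *
          (δ ^ d * S.card)) := by
  have hd0 : (0 : ℝ) < d := by exact_mod_cast hd
  obtain ⟨κ, hκ, C, hC, hcount⟩ := incid_count d (ε := d * ε / 2) (by positivity)
    (W := 1) zero_le_one
  refine ⟨κ, hκ, ?_⟩
  intro K hK
  obtain ⟨D, hD⟩ := exists_nat_ge (2 * K + 2)
  set B : ℝ := (2 * (2 * D : ℕ) + 1) ^ d with hB
  have hB0 : 0 < B := by rw [hB]; positivity
  have hV := Vc_pos d hK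
  refine ⟨Vc d K * (C * B) ^ (2 / (d : ℝ)), by positivity, ?_⟩
  intro m₀ hm₀ δ hδ hδm ι S c e k z hunit hmx M hM r hr
  set m : ℕ := 2 * (κ * m₀) with hm
  have h2m : (0 : ℝ) < 2 ^ m := by positivity
  set X : Set (E d) := {x | r ≤ mu δ c e S x} ∩ slab k 0 z with hX
  have hXm : MeasurableSet X := (measurableSet_level δ c e S r).inter (measurableSet_slab k 0 z)
  set Inc : Finset (S × ℤ) := ((Finset.univ : Finset S) ×ˢ Finset.Ico 0 (2 ^ m : ℤ)).filter
    (fun p => (X ∩ tube δ (c p.1) (e p.1) ∩ slab k m (p.2 + z * 2 ^ m)).Nonempty) with hInc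
  set P : Finset ((Fin d → ℤ) × ℤ) := Inc.image
    (fun p => (lc k m z (c p.1) (e p.1) p.2, p.2)) with hP
  -- every point of X lies in some slab
  have hslab : ∀ x ∈ X, ∃ j ∈ Finset.Ico 0 (2 ^ m : ℤ), x ∈ (slab k m (j + z * 2 ^ m) : Set (E d)) := by
    intro x hx
    have h1 : ⌊x k * 2 ^ 0⌋ = z := hx.2
    rw [pow_zero, mul_one, Int.floor_eq_iff] at h1
    refine ⟨⌊x k * 2 ^ m⌋ - z * 2 ^ m, ?_, ?_⟩
    · rw [Finset.mem_Ico]
      constructor
      · rw [sub_nonneg, Int.le_floor]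
        push_cast
        exact mul_le_mul_of_nonneg_right h1.1 h2m.le
      · rw [sub_lt_iff_lt_add, Int.floor_lt]
        push_cast
        have := mul_lt_mul_of_pos_right h1.2 h2m
        linarith
    · show ⌊x k * 2 ^ m⌋ = _
      ring
  -- claim 1
  have hcl1 : r * P.card ≤ B * Inc.card := by
    have hrep : ∀ p : P, ∃ x : E d, ∃ i : S, x ∈ X ∩ tube δ (c i) (e i) ∩
        slab k m (p.1.2 + z * 2 ^ m) ∧ p.1.2 ∈ Finset.Ico 0 (2 ^ m : ℤ) ∧
          lc k m z (c i) (e i) p.1.2 = p.1.1 := by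
      rintro ⟨p, hp⟩
      obtain ⟨w, hw, rfl⟩ := Finset.mem_image.mp hp
      rw [hInc, Finset.mem_filter, Finset.mem_product] at hw
      obtain ⟨x, hx⟩ := hw.2
      exact ⟨x, w.1, hx, hw.1.2, rfl⟩
    choose x f hx1 hx2 hx3 using hrep
    have hlow : ∀ p : P, r ≤ ((Inc.filter fun w => w.2 = p.1.2 ∧
        x p ∈ tube δ (c w.1) (e w.1)).card : ℝ) := by
      intro p
      have h1 : r ≤ mu δ c e S (x p) := (hx1 p).1.1.1
      refine h1.trans ?_
      have h2 : mu δ c e S (x p) ≤ (Inc.filter fun w => w.2 = p.1.2 ∧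
        x p ∈ tube δ (c w.1) (e w.1)).card := by
        rw [mu]
        apply Finset.card_le_card_of_surjOn (fun w : S × ℤ => (w.1 : ι))
        intro i hi
        rw [Finset.mem_coe, Finset.mem_filter] at hi
        refine ⟨(⟨i, hi.1⟩, p.1.2), ?_, rfl⟩
        rw [Finset.mem_coe, Finset.mem_filter, hInc, Finset.mem_filter, Finset.mem_product]
        exact ⟨⟨⟨Finset.mem_univ _, hx2 p⟩, ⟨x p, ⟨⟨(hx1 p).1.1, hi.2⟩, (hx1 p).2⟩⟩⟩, rfl, hi.2⟩
      exact_mod_cast h2
    have hup : ∀ w ∈ Inc, ((Finset.univ.filter fun p : P => w.2 = p.1.2 ∧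
        x p ∈ tube δ (c w.1) (e w.1)).card : ℝ) ≤ B := by
      intro w hw
      have h3 := card_boxD (lc k m z (c w.1) (e w.1) w.2)
        ((Finset.univ.filter fun p : P => w.2 = p.1.2 ∧
          x p ∈ tube δ (c w.1) (e w.1)).image fun p => p.1.1) (2 * D) (by
        intro y hy l
        obtain ⟨p, hp, rfl⟩ := Finset.mem_image.mp hy
        obtain ⟨-, h4, h5⟩ := Finset.mem_filter.mp hp
        have g1 := lc_near hδ.le (hmx _ w.1.2) (hunit _ w.1.2) hδm h5
          (z := z) (j := w.2) (by rw [h4]; exact (hx1 p).2) l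
        have g2 := lc_near hδ.le (hmx _ (f p).2) (hunit _ (f p).2) hδm (hx1 p).1.2
          (z := z) (j := p.1.2) (hx1 p).2 l
        rw [hx3 p] at g2
        have g3 : |((p.1.1 l - lc k m z (c w.1) (e w.1) w.2 l : ℤ) : ℝ)| ≤ ((2 * D : ℕ) : ℝ) := by
          push_cast
          rw [abs_le] at g1 g2 ⊢
          constructor <;> linarith [g1.1, g1.2, g2.1, g2.2]
        exact_mod_cast g3)
      rw [Finset.card_image_of_injOn] at h3
      · have : (((2 * (2 * D) + 1) ^ d : ℕ) : ℝ) = B := by rw [hB]; push_cast; ring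
        rw [← this]
        exact_mod_cast h3
      · intro p hp q hq hpq
        obtain ⟨-, h4, -⟩ := Finset.mem_filter.mp (Finset.mem_coe.mp hp)
        obtain ⟨-, h6, -⟩ := Finset.mem_filter.mp (Finset.mem_coe.mp hq)
        exact Subtype.ext (Prod.ext hpq (h4.symm.trans h6))
    calc r * P.card = ∑ _p : P, r := by
          rw [Finset.sum_const, Finset.card_univ, Fintype.card_coe, nsmul_eq_mul]; ring
      _ ≤ ∑ p : P, ((Inc.filter fun w => w.2 = p.1.2 ∧
        x p ∈ tube δ (c w.1) (e w.1)).card : ℝ) := Finset.sum_le_sum fun p _ => hlow p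
      _ = ∑ w ∈ Inc, ((Finset.univ.filter fun p : P => w.2 = p.1.2 ∧
        x p ∈ tube δ (c w.1) (e w.1)).card : ℝ) := by
          simp only [Finset.card_filter]
          push_cast
          rw [Finset.sum_comm]
      _ ≤ ∑ _w ∈ Inc, B := Finset.sum_le_sum hup
      _ = B * Inc.card := by rw [Finset.sum_const, nsmul_eq_mul]; ring
  -- claim 2
  have hcl2 : ENNReal.ofReal r * volume X ≤
      ENNReal.ofReal (Inc.card * (Vc d K * δ ^ d / 2 ^ m)) := by
    have h1 := level_mass δ c e S hXm (fun x hx => hx.1) (lam := r)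
    refine h1.trans ?_
    rw [← Finset.sum_coe_sort S (fun j => volume (X ∩ tube δ (c j) (e j)))]
    have h2 : ∀ i : S, volume (X ∩ tube δ (c i) (e i)) ≤
        (((Finset.Ico 0 (2 ^ m : ℤ)).filter fun j =>
          (X ∩ tube δ (c i) (e i) ∩ slab k m (j + z * 2 ^ m)).Nonempty).card : ℝ≥0∞) *
            ENNReal.ofReal (Vc d K * δ ^ d / 2 ^ m) := by
      intro i
      have h3 : X ∩ tube δ (c i) (e i) ⊆ ⋃ j ∈ (Finset.Ico 0 (2 ^ m : ℤ)).filter fun j =>
          (X ∩ tube δ (c i) (e i) ∩ slab k m (j + z * 2 ^ m)).Nonempty,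
            (tube δ (c i) (e i) ∩ slab k m (j + z * 2 ^ m)) := by
        intro x hx
        obtain ⟨j, hj, hj2⟩ := hslab x hx.1
        simp only [Set.mem_iUnion]
        exact ⟨j, Finset.mem_filter.mpr ⟨hj, ⟨x, hx, hj2⟩⟩, hx.2, hj2⟩
      refine (measure_mono h3).trans ((measure_biUnion_finset_le _ _).trans ?_)
      refine (Finset.sum_le_sum fun j _ => vol_slabK (c := c i) hδ.le (hmx _ i.2) (hunit _ i.2)
        hδm (j + z * 2 ^ m)).trans (le_of_eq ?_)
      rw [Finset.sum_const, nsmul_eq_mul]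
    refine (Finset.sum_le_sum fun i _ => h2 i).trans (le_of_eq ?_)
    rw [← Finset.sum_mul, ENNReal.ofReal_mul (Nat.cast_nonneg _), ENNReal.ofReal_natCast]
    congr 1
    rw [hInc]
    have h4 := Finset.card_eq_sum_card_fiberwise (s := ((Finset.univ : Finset S) ×ˢ
      Finset.Ico 0 (2 ^ m : ℤ)).filter
      (fun p => (X ∩ tube δ (c p.1) (e p.1) ∩ slab k m (p.2 + z * 2 ^ m)).Nonempty))
      (t := (Finset.univ : Finset S)) (f := fun p => p.1) (fun x _ => Finset.mem_coe.mpr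
        (Finset.mem_univ _))
    rw [h4, Nat.cast_sum]
    apply Finset.sum_congr rfl
    intro i _
    congr 1
    apply Finset.card_bij (fun j _ => (i, j))
    · intro j hj
      rw [Finset.mem_filter] at hj
      rw [Finset.mem_filter, Finset.mem_filter, Finset.mem_product]
      exact ⟨⟨⟨Finset.mem_univ _, hj.1⟩, hj.2⟩, rfl⟩
    · intro j _ j' _ h5
      exact (Prod.ext_iff.mp h5).2
    · rintro ⟨i', j⟩ hb
      rw [Finset.mem_filter, Finset.mem_filter, Finset.mem_product] at hb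
      obtain ⟨⟨⟨-, h6⟩, h7⟩, h8⟩ := hb
      simp only at h8
      subst h8
      exact ⟨j, Finset.mem_filter.mpr ⟨h6, h7⟩, rfl⟩
  refine hcl2.trans (ENNReal.ofReal_le_ofReal ?_)
  -- the counting theorem
  rcases Nat.eq_zero_or_pos Inc.card with h0 | hpos
  · rw [h0, Nat.cast_zero, zero_mul]
    positivity
  · have hI0 : (0 : ℝ) < Inc.card := by exact_mod_cast hpos
    have h5 := hcount m₀ hm₀ S (fun i => lu k m z (c i) (e i)) (fun i => lv k m (e i))
      (fun i l => lv_le (hmx _ i.2) (hunit _ i.2) m l) Inc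
      (fun w hw => by
        rw [hInc, Finset.mem_filter, Finset.mem_product, Finset.mem_Ico] at hw
        exact hw.1.2) P
      (fun w hw => Finset.mem_image_of_mem (fun p : S × ℤ =>
        (lc k m z (c p.1) (e p.1) p.2, p.2)) hw) M (by
        intro a b
        refine le_trans (le_of_eq ?_) (hM a b)
        apply Finset.card_bij (fun (i : S) _ => (i : ι))
        · intro i hi
          rw [Finset.mem_filter] at hi ⊢
          exact ⟨i.2, hi.2⟩
        · intro i _ j _ hij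
          exact Subtype.ext hij
        · intro i hi
          rw [Finset.mem_filter] at hi
          exact ⟨⟨i, hi.1⟩, Finset.mem_filter.mpr ⟨Finset.mem_univ _, hi.2⟩, rfl⟩)
    rw [Fintype.card_coe] at h5
    have h6 := solve_I hd hI0 hC h2m (Nat.cast_nonneg M) hB0 hr (Nat.cast_nonneg S.card) hcl1 h5
    calc (Inc.card : ℝ) * (Vc d K * δ ^ d / 2 ^ m)
        ≤ ((C * B) ^ (2 / (d : ℝ)) * (2 ^ m) ^ ε * ((M : ℝ) / r) ^ (2 / (d : ℝ)) *
          (2 ^ m * S.card)) * (Vc d K * δ ^ d / 2 ^ m) := by gcongr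
      _ = _ := by field_simp

end Pool.Agent.H76.Spr
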